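import Pool.Agent.MP_3fd3f5_an.Defs

attribute [-instance] AddQuantale.instAddLeftMono IdemSemiring.toCanonicallyOrderedAdd
  IdemSemiring.toMulLeftMono AddQuantale.instAddRightMono Nontrivial.to_nonempty
  NumberField.to_charZero FunLike.toDecidableEq Zero.instNonempty Quantale.instMulRightMono
  bot_nonempty IsOrderedMonoid.toMulLeftMono LinearOrderedCommMonoidWithZero.toPosMulStrictMono
  One.instNonempty Quantale.instMulLeftMono AddTorsor.nonempty
  Group.IsPerfect.subsingleton_of_isMulCommutative Group.instTorsor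
  covariant_swap_mul_of_covariant_mul top_nonempty LinearOrder.toDecidableEq
  ConnectedSpace.toNonempty instCoeHTCTOfCoeHTC TotallySeparatedSpace.t2Space
  LieAdmissibleRing.toNonUnitalNonAssocRing CStarAlgebra.instOrderClosedTopology
  CategoryTheory.IsConnected.is_nonempty CanonicallyOrderedAdd.toMulLeftMono littleWedderburn

-- part MP_3fd3f5_an.H78.Op
section

namespace Pool.Agent.MP_3fd3f5_an.H78

open Finset Matrix

section Val

variable {I J : Type} [Fintype I] [Fintype J] [Nonempty I] [Nonempty J]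

theorem exists_val (M : I → J → ℝ) : ∃ v : ℝ,
    (∃ x : stdSimplex ℝ I, ∀ j, v ≤ ∑ i, x.1 i * M i j) ∧
    (∃ y : stdSimplex ℝ J, ∀ i, ∑ j, y.1 j * M i j ≤ v) := by
  classical
  let F : (J → ℝ) → (I → ℝ) → ℝ := fun y x => ∑ i, ∑ j, x i * y j * M i j
  have hc1 : ∀ x, Continuous fun y => F y x := fun x => by unfold F; fun_prop
  have hc2 : ∀ y, Continuous fun x => F y x := fun y => by unfold F; fun_prop
  have hl1 : ∀ x y z (a b : ℝ), F (a • y + b • z) x = a * F y x + b * F z x := by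
    intro x y z a b
    simp only [F, Pi.add_apply, Pi.smul_apply, smul_eq_mul, Finset.mul_sum,
      ← Finset.sum_add_distrib]
    exact Finset.sum_congr rfl fun i _ => Finset.sum_congr rfl fun j _ => by ring
  have hl2 : ∀ y x z (a b : ℝ), F y (a • x + b • z) = a * F y x + b * F y z := by
    intro y x z a b
    simp only [F, Pi.add_apply, Pi.smul_apply, smul_eq_mul, Finset.mul_sum,
      ← Finset.sum_add_distrib]
    exact Finset.sum_congr rfl fun i _ => Finset.sum_congr rfl fun j _ => by ring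
  obtain ⟨a, ha, b, hb, hab⟩ := Sion.exists_isSaddlePointOn (X := stdSimplex ℝ J)
    (Y := stdSimplex ℝ I) (f := F)
    ⟨_, single_mem_stdSimplex ℝ (Classical.arbitrary J)⟩ (convex_stdSimplex ℝ J)
    (isCompact_stdSimplex ℝ J)
    (fun x _ => (hc1 x).continuousOn.lowerSemicontinuousOn)
    (fun x _ => ConvexOn.quasiconvexOn ⟨convex_stdSimplex ℝ J,
      fun y _ z _ a b _ _ _ => le_of_eq (by simpa using hl1 x y z a b)⟩)
    (convex_stdSimplex ℝ I) ⟨_, single_mem_stdSimplex ℝ (Classical.arbitrary I)⟩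
    (isCompact_stdSimplex ℝ I)
    (fun y _ => (hc2 y).continuousOn.upperSemicontinuousOn)
    (fun y _ => ConcaveOn.quasiconcaveOn ⟨convex_stdSimplex ℝ I,
      fun x _ z _ a b _ _ _ => le_of_eq (by simpa using (hl2 y x z a b).symm)⟩)
  refine ⟨F a b, ⟨⟨b, hb⟩, fun j => ?_⟩, ⟨⟨a, ha⟩, fun i => ?_⟩⟩
  · have := hab _ (single_mem_stdSimplex ℝ j) b hb
    simpa only [F, ge_iff_le, Pi.single_apply, mul_ite, mul_one, mul_zero, ite_mul, zero_mul, sum_ite_eq', mem_univ, ↓ reduceIte] using this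
  · have := hab a ha _ (single_mem_stdSimplex ℝ i)
    simpa only [F, ge_iff_le, Pi.single_apply, ite_mul, one_mul, zero_mul, sum_ite_irrel, sum_const_zero, sum_ite_eq', mem_univ, ↓ reduceIte] using this

/-- The value of a finite matrix game. -/
noncomputable def val (M : I → J → ℝ) : ℝ := (exists_val M).choose

theorem val_opt1 (M : I → J → ℝ) : ∃ x : stdSimplex ℝ I, ∀ j, val M ≤ ∑ i, x.1 i * M i j :=
  (exists_val M).choose_spec.1

theorem val_opt2 (M : I → J → ℝ) : ∃ y : stdSimplex ℝ J, ∀ i, ∑ j, y.1 j * M i j ≤ val M :=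
  (exists_val M).choose_spec.2

omit [Nonempty I] [Nonempty J] in
theorem le_mix {M : I → J → ℝ} {v : ℝ} (x : stdSimplex ℝ I) (y : stdSimplex ℝ J)
    (h : ∀ j, v ≤ ∑ i, x.1 i * M i j) : v ≤ ∑ i, ∑ j, x.1 i * y.1 j * M i j := by
  rw [Finset.sum_comm]
  calc v = ∑ j, y.1 j * v := by rw [← Finset.sum_mul, y.2.2, one_mul]
    _ ≤ _ := Finset.sum_le_sum fun j _ => by
      have := mul_le_mul_of_nonneg_left (h j) (y.2.1 j)
      rw [Finset.mul_sum] at this
      exact this.trans (le_of_eq (Finset.sum_congr rfl fun i _ => by ring))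

omit [Nonempty I] [Nonempty J] in
theorem mix_le {M : I → J → ℝ} {v : ℝ} (x : stdSimplex ℝ I) (y : stdSimplex ℝ J)
    (h : ∀ i, ∑ j, y.1 j * M i j ≤ v) : ∑ i, ∑ j, x.1 i * y.1 j * M i j ≤ v := by
  calc _ ≤ ∑ i, x.1 i * v := Finset.sum_le_sum fun i _ => by
        have := mul_le_mul_of_nonneg_left (h i) (x.2.1 i)
        rw [Finset.mul_sum] at this
        exact (le_of_eq (Finset.sum_congr rfl fun j _ => by ring)).trans this
    _ = v := by rw [← Finset.sum_mul, x.2.2, one_mul]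

omit [Nonempty I] [Nonempty J] in
theorem mix_mono {M M' : I → J → ℝ} (x : stdSimplex ℝ I) (y : stdSimplex ℝ J)
    (h : ∀ i j, M i j ≤ M' i j) :
    ∑ i, ∑ j, x.1 i * y.1 j * M i j ≤ ∑ i, ∑ j, x.1 i * y.1 j * M' i j :=
  Finset.sum_le_sum fun i _ => Finset.sum_le_sum fun j _ =>
    mul_le_mul_of_nonneg_left (h i j) (mul_nonneg (x.2.1 i) (y.2.1 j))

omit [Nonempty I] [Nonempty J] in
theorem mix_const (x : stdSimplex ℝ I) (y : stdSimplex ℝ J) (c : ℝ) :
    ∑ i, ∑ j, x.1 i * y.1 j * c = c := by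
  simp only [← Finset.sum_mul, ← Finset.mul_sum, x.2.2, y.2.2]; ring

theorem val_le {M M' : I → J → ℝ} {α β c : ℝ} (hα : 0 ≤ α) (hβ : 0 ≤ β)
    (h : ∀ i j, α * M i j ≤ β * M' i j + c) : α * val M ≤ β * val M' + c := by
  obtain ⟨x, hx⟩ := val_opt1 M
  obtain ⟨y, hy⟩ := val_opt2 M'
  have h1 := mul_le_mul_of_nonneg_left (le_mix x y hx) hα
  have h2 := mul_le_mul_of_nonneg_left (mix_le x y hy) hβ
  have h3 := mix_mono x y h
  have e1 : ∑ i, ∑ j, x.1 i * y.1 j * (α * M i j) = α * ∑ i, ∑ j, x.1 i * y.1 j * M i j := by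
    simp only [Finset.mul_sum]
    exact Finset.sum_congr rfl fun i _ => Finset.sum_congr rfl fun j _ => by ring
  have e2 : ∑ i, ∑ j, x.1 i * y.1 j * (β * M' i j + c) =
      β * ∑ i, ∑ j, x.1 i * y.1 j * M' i j + ∑ i, ∑ j, x.1 i * y.1 j * c := by
    simp only [Finset.mul_sum, ← Finset.sum_add_distrib]
    exact Finset.sum_congr rfl fun i _ => Finset.sum_congr rfl fun j _ => by ring
  rw [e1, e2, mix_const] at h3
  linarith only [h1, h2, h3]

theorem val_le' {M M' : I → J → ℝ} {c : ℝ} (h : ∀ i j, M i j ≤ M' i j + c) :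
    val M ≤ val M' + c := by
  simpa only [one_mul] using val_le (M := M) (M' := M') (c := c) zero_le_one zero_le_one (by simpa only [one_mul] using h)

theorem val_smul {M M' : I → J → ℝ} {c : ℝ} (hc : 0 ≤ c) (h : ∀ i j, M i j = c * M' i j) :
    val M = c * val M' := by
  have h1 := val_le (M := M) (M' := M') (c := 0) zero_le_one hc (fun i j => by simp [h])
  have h2 := val_le (M := M') (M' := M) (c := 0) hc zero_le_one (fun i j => by simp [h])
  linarith

end Val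

/-- The `l¹` norm. -/
def n1 {Ω : Type} [Fintype Ω] (μ : Ω → ℝ) : ℝ := ∑ ω, |μ ω|

variable {A Ω I J : Type} [Fintype A] [Fintype Ω] [DecidableEq Ω] [Fintype I] [Fintype J]
  [Nonempty I] [Nonempty J] (G : Game A Ω I J)

open Classical in
/-- Restriction of a measure to the states with signal `a`. -/
noncomputable def cut (a : A) (μ : Ω → ℝ) : Ω → ℝ := fun ω => if G.f ω = a then μ ω else 0

/-- Expected stage payoff. -/
def pay (i : I) (j : J) (μ : Ω → ℝ) : ℝ := ∑ ω, μ ω * G.g i j ω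

/-- The one-shot matrix game. -/
noncomputable def mat (w h : ℝ) (u : (Ω → ℝ) → ℝ) (μ : Ω → ℝ) : I → J → ℝ :=
  fun i j => w * pay G i j μ + u (μ ᵥ* G.step h i j)

/-- Backward induction with terminal function `φ`, `r` stages left, current stage `n`. -/
noncomputable def U (h w : ℕ → ℝ) (φ : (Ω → ℝ) → ℝ) : ℕ → ℕ → (Ω → ℝ) → ℝ
  | 0, _ => φ
  | r + 1, n => fun μ => ∑ a, val (mat G (w n) (h n) (U h w φ r (n + 1)) (cut G a μ))

omit [DecidableEq Ω] in
theorem n1_nonneg (μ : Ω → ℝ) : 0 ≤ n1 μ := Finset.sum_nonneg fun _ _ => abs_nonneg _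

omit [DecidableEq Ω] in
theorem abs_le_n1 (μ : Ω → ℝ) (ω : Ω) : |μ ω| ≤ n1 μ :=
  Finset.single_le_sum (f := fun ω => |μ ω|) (fun _ _ => abs_nonneg _) (Finset.mem_univ ω)

omit [DecidableEq Ω] in
theorem n1_sub_le (μ ν : Ω → ℝ) : n1 (μ - ν) ≤ n1 μ + n1 ν := by
  unfold n1
  rw [← Finset.sum_add_distrib]
  exact Finset.sum_le_sum fun ω _ => abs_sub _ _

omit [DecidableEq Ω] in
theorem n1_simplex (p : stdSimplex ℝ Ω) : n1 p.1 = 1 := by
  rw [← p.2.2]; exact Finset.sum_congr rfl fun ω _ => abs_of_nonneg (p.2.1 ω)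

omit [Fintype I] [Fintype J] [Nonempty I] [Nonempty J] in
theorem sum_cut (μ : Ω → ℝ) (F : A → Ω → ℝ) :
    ∑ ω, μ ω * F (G.f ω) ω = ∑ a, ∑ ω, cut G a μ ω * F a ω := by
  classical
  rw [Finset.sum_comm]
  refine Finset.sum_congr rfl fun ω _ => ?_
  simp only [cut, ite_mul, zero_mul, sum_ite_eq, mem_univ, ↓ reduceIte]

omit [Fintype I] [Fintype J] [Nonempty I] [Nonempty J] in
theorem sum_n1_cut (μ : Ω → ℝ) : ∑ a, n1 (cut G a μ) = n1 μ := by
  classical
  unfold n1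
  rw [Finset.sum_comm]
  refine Finset.sum_congr rfl fun ω _ => ?_
  simp only [cut, apply_ite abs, abs_zero, sum_ite_eq, mem_univ, ↓ reduceIte]

omit [Fintype A] [Fintype I] [Fintype J] [Nonempty I] [Nonempty J] in
theorem n1_cut_le (a : A) (μ : Ω → ℝ) : n1 (cut G a μ) ≤ n1 μ :=
  Finset.sum_le_sum fun ω _ => by unfold cut; split_ifs <;> simp

omit [Fintype A] [Fintype I] [Fintype J] [Nonempty I] [Nonempty J] in
theorem cut_smul (a : A) (c : ℝ) (μ : Ω → ℝ) : cut G a (c • μ) = c • cut G a μ := by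
  funext ω; simp [cut]

omit [Fintype A] [Fintype I] [Fintype J] [Nonempty I] [Nonempty J] in
theorem cut_sub (a : A) (μ ν : Ω → ℝ) : cut G a (μ - ν) = cut G a μ - cut G a ν := by
  funext ω; simp only [cut, Pi.sub_apply]; split_ifs <;> simp

omit [Fintype A] [Fintype I] [Fintype J] [Nonempty I] [Nonempty J] in
theorem cut_cut (a : A) (μ : Ω → ℝ) : cut G a (cut G a μ) = cut G a μ := by
  funext ω; simp only [cut]; split_ifs <;> simp

omit [Fintype A] [Fintype I] [Fintype J] [Nonempty I] [Nonempty J] in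
theorem cut_cut_ne {a b : A} (hab : a ≠ b) (μ : Ω → ℝ) : cut G a (cut G b μ) = 0 := by
  funext ω; simp only [cut]
  split_ifs with h1 h2
  · exact absurd (h1.symm.trans h2) hab
  · rfl
  · rfl

omit [Fintype A] [Fintype I] [Fintype J] [Nonempty I] [Nonempty J] in
theorem cut_nonneg (a : A) {μ : Ω → ℝ} (hμ : ∀ ω, 0 ≤ μ ω) (ω : Ω) : 0 ≤ cut G a μ ω := by
  unfold cut; split_ifs
  · exact hμ ω
  · exact le_rfl

omit [Fintype A] [Fintype I] [Fintype J] [Nonempty I] [Nonempty J] in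
theorem step_stoch {h : ℝ} (h0 : 0 ≤ h) (h1 : h ≤ 1) (i : I) (j : J) :
    (∀ ω ω', 0 ≤ G.step h i j ω ω') ∧ ∀ ω, ∑ ω', G.step h i j ω ω' = 1 := by
  have hP := G.P_stoch i j
  constructor
  · intro ω ω'
    have := Matrix.nonneg_of_mem_rowStochastic hP (i := ω) (j := ω')
    simp only [Game.step, Matrix.add_apply, Matrix.smul_apply, Matrix.sub_apply,
      Matrix.one_apply, smul_eq_mul]
    split_ifs <;> nlinarith only [h0, h1, this]
  · intro ω
    have := Matrix.sum_row_of_mem_rowStochastic hP ω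
    simp only [Game.step, Matrix.add_apply, Matrix.smul_apply, Matrix.sub_apply,
      Matrix.one_apply, smul_eq_mul, Finset.sum_add_distrib, ← Finset.mul_sum,
      Finset.sum_sub_distrib, this]
    simp only [sum_ite_eq, mem_univ, ↓ reduceIte, sub_self, mul_zero, add_zero]

omit [Fintype A] [Fintype I] [Fintype J] [Nonempty I] [Nonempty J] in
theorem step_one (i : I) (j : J) : G.step 1 i j = G.P i j := by simp [Game.step]

omit [Fintype A] [Fintype I] [Fintype J] [Nonempty I] [Nonempty J] in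
theorem vecMul_step (h : ℝ) (i : I) (j : J) (μ : Ω → ℝ) :
    μ ᵥ* G.step h i j = μ + h • (μ ᵥ* G.P i j - μ) := by
  simp [Game.step, Matrix.vecMul_add, Matrix.vecMul_smul, Matrix.vecMul_sub]

omit [Fintype A] [Fintype I] [Fintype J] [Nonempty I] [Nonempty J] in
theorem n1_step {h : ℝ} (h0 : 0 ≤ h) (h1 : h ≤ 1) (i : I) (j : J) (μ : Ω → ℝ) :
    n1 (μ ᵥ* G.step h i j) ≤ n1 μ := by
  obtain ⟨hp, hs⟩ := step_stoch G h0 h1 i j
  unfold n1
  calc ∑ ω', |(μ ᵥ* G.step h i j) ω'| ≤ ∑ ω', ∑ ω, |μ ω| * G.step h i j ω ω' :=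
        Finset.sum_le_sum fun ω' _ => by
          simp only [Matrix.vecMul, dotProduct]
          refine (Finset.abs_sum_le_sum_abs _ _).trans (le_of_eq ?_)
          exact Finset.sum_congr rfl fun ω _ => by rw [abs_mul, abs_of_nonneg (hp ω ω')]
    _ = _ := by
      rw [Finset.sum_comm]
      exact Finset.sum_congr rfl fun ω _ => by rw [← Finset.mul_sum, hs, mul_one]

omit [Fintype A] [Fintype I] [Fintype J] [Nonempty I] [Nonempty J] in
theorem n1_P (i : I) (j : J) (μ : Ω → ℝ) : n1 (μ ᵥ* G.P i j) ≤ n1 μ := by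
  simpa [step_one] using n1_step G zero_le_one le_rfl i j μ

omit [Fintype A] [Fintype I] [Fintype J] [Nonempty I] [Nonempty J] in
theorem step_nonneg {h : ℝ} (h0 : 0 ≤ h) (h1 : h ≤ 1) (i : I) (j : J) {μ : Ω → ℝ}
    (hμ : ∀ ω, 0 ≤ μ ω) (ω' : Ω) : 0 ≤ (μ ᵥ* G.step h i j) ω' := by
  simp only [Matrix.vecMul, dotProduct]
  exact Finset.sum_nonneg fun ω _ => mul_nonneg (hμ ω) ((step_stoch G h0 h1 i j).1 ω ω')

omit [Fintype A] [Fintype I] [Fintype J] [Nonempty I] [Nonempty J] in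
theorem abs_pay_le {R : ℝ} (hR : ∀ i j ω, |G.g i j ω| ≤ R) (i : I) (j : J) (μ : Ω → ℝ) :
    |pay G i j μ| ≤ R * n1 μ := by
  unfold pay n1
  rw [Finset.mul_sum]
  refine (Finset.abs_sum_le_sum_abs _ _).trans (Finset.sum_le_sum fun ω _ => ?_)
  rw [abs_mul, mul_comm]
  exact mul_le_mul_of_nonneg_right (hR i j ω) (abs_nonneg _)

omit [Fintype A] [Fintype I] [Fintype J] [Nonempty I] [Nonempty J] in
theorem pay_sub (i : I) (j : J) (μ ν : Ω → ℝ) :
    pay G i j (μ - ν) = pay G i j μ - pay G i j ν := by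
  simp only [pay, Pi.sub_apply, sub_mul, sum_sub_distrib]

omit [Fintype A] [Fintype I] [Fintype J] [Nonempty I] [Nonempty J] in
theorem pay_smul (i : I) (j : J) (c : ℝ) (μ : Ω → ℝ) :
    pay G i j (c • μ) = c * pay G i j μ := by
  simp only [pay, Pi.smul_apply, smul_eq_mul, mul_assoc, mul_sum]

theorem U_scale {h w h' w' : ℕ → ℝ} {c d : ℝ} (hc : 0 ≤ c) (hd : 0 ≤ d) (r : ℕ) :
    ∀ (n n' : ℕ), (∀ k, h (n + k) = h' (n' + k)) → (∀ k, w (n + k) = d * w' (n' + k)) →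
      ∀ μ, U G h w 0 r n (c • μ) = c * d * U G h' w' 0 r n' μ := by
  induction r with
  | zero => intro n n' _ _ μ; simp [U]
  | succ r ih =>
    intro n n' hh hw μ
    simp only [U, Finset.mul_sum]
    refine Finset.sum_congr rfl fun a _ => val_smul (mul_nonneg hc hd) fun i j => ?_
    have h0 := hh 0
    have w0 := hw 0
    simp only [add_zero] at h0 w0
    simp only [mat, cut_smul, pay_smul, Matrix.smul_vecMul, h0, w0]
    rw [ih (n + 1) (n' + 1) (fun k => by simpa [add_assoc, add_comm 1 k] using hh (k + 1))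
      (fun k => by simpa [add_assoc, add_comm 1 k] using hw (k + 1))]
    ring

theorem U_smul (h w : ℕ → ℝ) {c : ℝ} (hc : 0 ≤ c) (r n : ℕ) (μ : Ω → ℝ) :
    U G h w 0 r n (c • μ) = c * U G h w 0 r n μ := by
  simpa using U_scale G (h := h) (w := w) (h' := h) (w' := w) hc zero_le_one r n n
    (fun _ => rfl) (fun _ => by simp) μ

theorem U_zero (h w : ℕ → ℝ) (r n : ℕ) : U G h w 0 r n 0 = 0 := by
  simpa using U_smul G h w le_rfl r n 0

theorem U_single (h w : ℕ → ℝ) (r n : ℕ) {a : A} {μ : Ω → ℝ} (hμ : cut G a μ = μ) :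
    U G h w 0 (r + 1) n μ = val (mat G (w n) (h n) (U G h w 0 r (n + 1)) μ) := by
  simp only [U]
  rw [Finset.sum_eq_single a, hμ]
  · intro b _ hb
    rw [← hμ, cut_cut_ne G hb]
    have := val_smul (M := mat G (w n) (h n) (U G h w 0 r (n + 1)) 0) (M' := fun _ _ => 0)
      le_rfl (fun i j => by simp only [mat, pay, Pi.zero_apply, zero_mul, sum_const_zero, mul_zero, zero_vecMul, U_zero, add_zero])
    simpa using this
  · simp only [mem_univ, not_true_eq_false, IsEmpty.forall_iff]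

theorem U_add (h w : ℕ → ℝ) (r n : ℕ) (μ : Ω → ℝ) :
    U G h w 0 r n μ = ∑ a, U G h w 0 r n (cut G a μ) := by
  cases r with
  | zero => simp only [U, Pi.zero_apply, sum_const_zero]
  | succ r =>
    rw [Finset.sum_congr rfl fun a _ => U_single G h w r n (cut_cut G a μ)]
    rfl

theorem U_comp (h w : ℕ → ℝ) (φ : (Ω → ℝ) → ℝ) (r r' : ℕ) :
    ∀ n, U G h w φ (r + r') n = U G h w (U G h w φ r' (n + r)) r n := by
  induction r with
  | zero => intro n; simp [U]
  | succ r ih =>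
    intro n
    rw [show r + 1 + r' = (r + r') + 1 by ring]
    simp only [U]
    rw [ih (n + 1), show n + 1 + r = n + (r + 1) by ring]

theorem U_lip {R : ℝ} (hR0 : 0 ≤ R) (hR : ∀ i j ω, |G.g i j ω| ≤ R) {h : ℕ → ℝ}
    (h0 : ∀ n, 0 ≤ h n) (h1 : ∀ n, h n ≤ 1) (w : ℕ → ℝ) (r : ℕ) : ∀ (n : ℕ) (μ ν : Ω → ℝ),
      U G h w 0 r n μ ≤ U G h w 0 r n ν +
        (R * ∑ k ∈ range r, |w (n + k)|) * n1 (μ - ν) := by
  induction r with
  | zero => intro n μ ν; simp [U]
  | succ r ih =>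
    intro n μ ν
    simp only [U]
    rw [← sum_n1_cut G (μ - ν), Finset.mul_sum, ← Finset.sum_add_distrib]
    refine Finset.sum_le_sum fun a _ => val_le' fun i j => ?_
    have e := ih (n + 1) (cut G a μ ᵥ* G.step (h n) i j) (cut G a ν ᵥ* G.step (h n) i j)
    rw [← Matrix.sub_vecMul, ← cut_sub] at e
    have hs : 0 ≤ R * ∑ k ∈ range r, |w (n + 1 + k)| := by positivity
    have e2 := mul_le_mul_of_nonneg_left (n1_step G (h0 n) (h1 n) i j (cut G a (μ - ν))) hs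
    have e3 := abs_pay_le G hR i j (cut G a (μ - ν))
    have e4 : w n * pay G i j (cut G a (μ - ν)) ≤ |w n| * (R * n1 (cut G a (μ - ν))) :=
      (le_abs_self _).trans (by rw [abs_mul]; gcongr)
    rw [cut_sub, pay_sub, ← cut_sub] at e4
    rw [Finset.sum_range_succ']
    simp only [Nat.add_right_comm n 1] at e e2 hs
    simp only [mat, add_zero, ← add_assoc]
    linarith only [e4, e, e2]

theorem abs_U_le {R : ℝ} (hR0 : 0 ≤ R) (hR : ∀ i j ω, |G.g i j ω| ≤ R) {h : ℕ → ℝ}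
    (h0 : ∀ n, 0 ≤ h n) (h1 : ∀ n, h n ≤ 1) (w : ℕ → ℝ) (r n : ℕ) (μ : Ω → ℝ) :
    |U G h w 0 r n μ| ≤ (R * ∑ k ∈ range r, |w (n + k)|) * n1 μ := by
  have e1 := U_lip G hR0 hR h0 h1 w r n μ 0
  have e2 := U_lip G hR0 hR h0 h1 w r n 0 μ
  have e3 : n1 (0 - μ) = n1 μ := by simp only [n1, Pi.sub_apply, Pi.zero_apply, zero_sub, abs_neg]
  rw [U_zero, sub_zero] at e1
  rw [U_zero, e3] at e2
  rw [abs_le]; constructor <;> linarith

theorem U_pert {R c : ℝ} (hR : ∀ i j ω, |G.g i j ω| ≤ R) (hR0 : 0 ≤ R) (hc : 0 ≤ c)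
    {h : ℕ → ℝ} (h0 : ∀ n, 0 ≤ h n) (h1 : ∀ n, h n ≤ 1) (w w' : ℕ → ℝ)
    {φ ψ : (Ω → ℝ) → ℝ} (hφ : ∀ μ, (∀ ω, 0 ≤ μ ω) → φ μ ≤ ψ μ + c * n1 μ) (r : ℕ) :
    ∀ (n : ℕ) (μ : Ω → ℝ), (∀ ω, 0 ≤ μ ω) → U G h w φ r n μ ≤ U G h w' ψ r n μ +
        (c + R * ∑ k ∈ range r, |w (n + k) - w' (n + k)|) * n1 μ := by
  induction r with
  | zero => intro n μ hμ; simpa only [U, range_zero, sum_empty, mul_zero, add_zero] using hφ μ hμ
  | succ r ih =>
    intro n μ hμ
    simp only [U]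
    rw [← sum_n1_cut G μ, Finset.mul_sum, ← Finset.sum_add_distrib]
    refine Finset.sum_le_sum fun a _ => val_le' fun i j => ?_
    have e := ih (n + 1) (cut G a μ ᵥ* G.step (h n) i j)
      (step_nonneg G (h0 n) (h1 n) i j (cut_nonneg G a hμ))
    have hs : 0 ≤ c + R * ∑ k ∈ range r, |w (n + 1 + k) - w' (n + 1 + k)| := by positivity
    have e2 := mul_le_mul_of_nonneg_left (n1_step G (h0 n) (h1 n) i j (cut G a μ)) hs
    have e3 := abs_pay_le G hR i j (cut G a μ)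
    have e4 : (w n - w' n) * pay G i j (cut G a μ) ≤ |w n - w' n| * (R * n1 (cut G a μ)) :=
      (le_abs_self _).trans (by rw [abs_mul]; gcongr)
    rw [Finset.sum_range_succ']
    simp only [Nat.add_right_comm n 1] at e e2 hs
    simp only [mat, add_zero, ← add_assoc]
    linarith only [e4, e, e2]

end Pool.Agent.MP_3fd3f5_an.H78

end

-- part MP_3fd3f5_an.H78.Core
section

namespace Pool.Agent.MP_3fd3f5_an.H78

open Finset Matrix

/-- Discrete exponential. -/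
def EE (γ : ℝ) (h : ℕ → ℝ) : ℕ → ℕ → ℝ
  | 0, _ => 1
  | r + 1, n => (1 + γ * h n) * EE γ h r (n + 1)

theorem one_le_EE {γ : ℝ} {h : ℕ → ℝ} (hγ : 0 ≤ γ) (h0 : ∀ n, 0 ≤ h n) (r : ℕ) :
    ∀ n, 1 ≤ EE γ h r n := by
  induction r with
  | zero => intro n; simp [EE]
  | succ r ih =>
    intro n
    have := mul_nonneg hγ (h0 n)
    simp only [EE]
    nlinarith only [ih (n + 1), this]

theorem EE_le {γ : ℝ} {t : ℕ → ℝ} (hγ : 0 ≤ γ) (h0 : ∀ n, 0 ≤ dur t n) (r : ℕ) :
    ∀ n, EE γ (dur t) r n ≤ Real.exp (γ * (t (n + r) - t n)) := by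
  induction r with
  | zero => intro n; simp [EE]
  | succ r ih =>
    intro n
    have e1 := Real.add_one_le_exp (γ * dur t n)
    have e2 := one_le_EE hγ h0 r (n + 1)
    simp only [EE]
    calc _ ≤ Real.exp (γ * dur t n) * Real.exp (γ * (t (n + 1 + r) - t (n + 1))) :=
          mul_le_mul (by linarith) (ih (n + 1)) (by linarith) (Real.exp_pos _).le
      _ = _ := by
        rw [← Real.exp_add, show n + 1 + r = n + (r + 1) by ring]
        simp only [dur]; ring_nf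

theorem sum_dur (t : ℕ → ℝ) (n r : ℕ) : ∑ k ∈ range r, dur t (n + k) = t (n + r) - t n := by
  induction r with
  | zero => simp
  | succ r ih => rw [Finset.sum_range_succ, ih, ← add_assoc]; simp [dur]

theorem le_of_dur {t : ℕ → ℝ} (h0 : ∀ n, 0 ≤ dur t n) : Monotone t :=
  monotone_nat_of_le_succ fun n => by have := h0 n; simp only [dur] at this; linarith

theorem sum_abs_w {t ρ : ℕ → ℝ} (h0 : ∀ n, 0 ≤ dur t n) (hρ : ∀ n, |ρ n| ≤ 1) (n r : ℕ) :
    ∑ k ∈ range r, |ρ (n + k) * dur t (n + k)| ≤ t (n + r) - t n := by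
  rw [← sum_dur]
  refine Finset.sum_le_sum fun k _ => ?_
  rw [abs_mul, abs_of_nonneg (h0 _)]
  exact mul_le_of_le_one_left (h0 _) (hρ _)

theorem numer {h k δ γ E B J d1 d2 err D : ℝ} (hh : 0 < h) (hk : 0 < k) (hhd : h ≤ δ)
    (hkd : k ≤ δ) (hγ : 0 ≤ γ) (hE : 1 ≤ E) (hB : 0 ≤ B) (herr : 0 ≤ err) (h1 : d1 ≤ D)
    (h2 : d2 ≤ D) (hD : 0 ≤ D) (main : err + J + d1 + d2 + 2 * γ * δ * D ≤ 2 * γ * B) :
    h * k * (err + E * J) + k * (E * (1 + γ * k) * (B + h * d1)) +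
      h * (E * (1 + γ * h) * (B + k * d2)) ≤ (h + k) * (E * (1 + γ * h) * (1 + γ * k) * B) := by
  have hhk : 0 < h * k := mul_pos hh hk
  have a1 : γ * k * d1 ≤ γ * δ * D :=
    (mul_le_mul_of_nonneg_left h1 (mul_nonneg hγ hk.le)).trans (by gcongr)
  have a2 : γ * h * d2 ≤ γ * δ * D :=
    (mul_le_mul_of_nonneg_left h2 (mul_nonneg hγ hh.le)).trans (by gcongr)
  have a3 : err + J + (1 + γ * k) * d1 + (1 + γ * h) * d2 ≤
      (γ * (1 + γ * k) + γ * (1 + γ * h)) * B := by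
    have : 0 ≤ γ * γ * (k + h) * B := by positivity
    linarith only [main, a1, a2, this]
  have a4 := mul_le_mul_of_nonneg_left a3 (mul_nonneg hhk.le (by linarith only [hE] : 0 ≤ E))
  have a5 : h * k * err ≤ h * k * E * err := by
    have := mul_le_mul_of_nonneg_left hE (mul_nonneg hhk.le herr)
    linarith only [this]
  linarith only [a4, a5]

theorem numer2 {R T ε δ γ cO cA h k E q x1 y S1 S2 α β : ℝ} (hR0 : 0 ≤ R) (hT : 0 ≤ T)
    (hε : 0 < ε) (hδ1 : δ ≤ 1) (cO0 : 0 ≤ cO) (cA0 : 0 ≤ cA)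
    (hγ : (R * T + R + 2) * cO + R * T + 3 * R + 2 * cA + 1 ≤ 2 * γ)
    (hδ : δ * (2 * cA + 10 + 2 * γ * (13 + 2 * T)) ≤ ε * ε) (hh0 : 0 < h) (hk0 : 0 < k)
    (hhδ : h ≤ δ) (hkδ : k ≤ δ) (hE1 : 1 ≤ E) (hq0 : 0 ≤ q) (x0 : 0 ≤ x1) (hyT : |y| ≤ T)
    (s1 : S1 ≤ 4) (s2 : S2 ≤ 4) (s3 : α ≤ 4) (s4 : -β ≤ 4) (s5 : α - β ≤ cO * q)
    (s6 : x1 * x1 ≤ cO * q) :
    h * k * (R * T * x1 + (R * x1 + R * (|y| + ε)) + E * (cA * ((y + h - k) ^ 2 / ε + ε))) +
      k * (E * (1 + γ * k) * ((q + y ^ 2) / ε + ε + h * ((2 * α + 2 * y + h * (S1 + 1)) / ε))) +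
      h * (E * (1 + γ * h) * ((q + y ^ 2) / ε + ε + k * ((-2 * β - 2 * y + k * (S2 + 1)) / ε))) ≤
      (h + k) * (E * (1 + γ * h) * (1 + γ * k) * ((q + y ^ 2) / ε + ε)) := by
  have hRT := mul_nonneg hR0 hT
  have hγ0 : 0 ≤ γ := by
    have : 0 ≤ (R * T + R + 2) * cO + R * T + 3 * R + 2 * cA + 1 := by positivity
    linarith only [hγ, this]
  have y1 := le_abs_self y
  have y2 := neg_abs_le y
  have t1 : h * (S1 + 1) ≤ δ * 5 :=
    (mul_le_mul_of_nonneg_left (by linarith only [s1] : _ ≤ (5 : ℝ)) hh0.le).trans (by linarith only [hhδ])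
  have t2 : k * (S2 + 1) ≤ δ * 5 :=
    (mul_le_mul_of_nonneg_left (by linarith only [s2] : _ ≤ (5 : ℝ)) hk0.le).trans (by linarith only [hkδ])
  refine numer (D := (13 + 2 * T) / ε) hh0 hk0 hhδ hkδ hγ0 hE1 (by positivity) (by positivity)
    (div_le_div_of_nonneg_right (by linarith only [hδ1, hyT, s3, y1, t1]) hε.le)
    (div_le_div_of_nonneg_right (by linarith only [hδ1, hyT, s4, y2, t2]) hε.le) (by positivity) ?_
  have b1 : x1 * ε ≤ cO * q + ε * ε := by
    nlinarith only [s6]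
  have b2 : |y| * ε ≤ y ^ 2 + ε * ε := by
    have := sq_abs y
    nlinarith only [this]
  have b3 : (y + h - k) ^ 2 ≤ 2 * y ^ 2 + 2 * δ := by
    have : (h - k) ^ 2 ≤ δ := by
      have a1 : |h - k| ≤ δ := by rw [abs_le]; constructor <;> linarith only [hh0, hkδ, hk0, hhδ]
      have a2 := sq_abs (h - k)
      have a3 := abs_nonneg (h - k)
      nlinarith only [hδ1, hh0, hk0, hhδ, hkδ]
    linarith only [sq_nonneg (y - (h - k)), this]
  have b4 := mul_le_mul_of_nonneg_left b1 (add_nonneg hRT hR0)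
  have b5 := mul_le_mul_of_nonneg_left b2 hR0
  have b6 := mul_le_mul_of_nonneg_left b3 cA0
  have b7 := mul_le_mul_of_nonneg_right hγ hq0
  have b8 := mul_le_mul_of_nonneg_right hγ (sq_nonneg y)
  have b9 := mul_le_mul_of_nonneg_right hγ (mul_self_nonneg ε)
  have p1 : 0 ≤ (R * T + 3 * R + 2 * cA + 1) * q := by positivity
  have p2 : 0 ≤ ((R * T + R + 2) * cO + R * T + 2 * R + 1) * y ^ 2 := by positivity
  have p3 : 0 ≤ ((R * T + R + 2) * cO + cA) * (ε * ε) := by positivity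
  rw [← mul_le_mul_iff_left₀ hε]
  have z1 : (R * T * x1 + (R * x1 + R * (|y| + ε)) + cA * ((y + h - k) ^ 2 / ε + ε) +
      (2 * α + 2 * y + h * (S1 + 1)) / ε + (-2 * β - 2 * y + k * (S2 + 1)) / ε +
      2 * γ * δ * ((13 + 2 * T) / ε)) * ε =
      (R * T + R) * (x1 * ε) + R * (|y| * ε) + R * (ε * ε) +
      cA * (y + h - k) ^ 2 + cA * (ε * ε) + 2 * (α - β) +
      h * (S1 + 1) + k * (S2 + 1) + 2 * γ * δ * (13 + 2 * T) := by
    field_simp; ring
  have z2 : 2 * γ * ((q + y ^ 2) / ε + ε) * ε = 2 * γ * q + 2 * γ * y ^ 2 + 2 * γ * (ε * ε) := by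
    field_simp
  rw [z1, z2]
  linarith only [hδ, s5, t1, t2, b4, b5, b6, b7, b8, b9, p1, p2, p3]

theorem le_four {a b c : ℝ} (h : c ≤ a * b) (ha : a ≤ 2) (hb : b ≤ 2) (_ : 0 ≤ a)
    (hb0 : 0 ≤ b) : c ≤ 4 := by nlinarith only [h, ha, hb, hb0]

theorem bdry {R ε x y E q : ℝ} (hR0 : 0 ≤ R) (hε : 0 < ε) (hx : |x| ≤ R * (|y| + ε))
    (hE : 1 ≤ E) (hq : 0 ≤ q) : |x| ≤ (2 * R + 1) * E * ((q + y ^ 2) / ε + ε) := by
  have e1 : |y| ≤ |y| * |y| / ε + ε := by
    rw [div_add' _ _ _ hε.ne', le_div_iff₀ hε]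
    nlinarith only []
  rw [abs_mul_abs_self] at e1
  have e2 : y * y / ε ≤ (q + y ^ 2) / ε := div_le_div_of_nonneg_right (by linarith only [hq]) hε.le
  have e3 : 0 ≤ (q + y ^ 2) / ε := by positivity
  have e4 : R * (|y| + ε) ≤ R * (2 * ((q + y ^ 2) / ε + ε)) :=
    mul_le_mul_of_nonneg_left (by linarith) hR0
  have e5 : (2 * R + 1) * 1 * ((q + y ^ 2) / ε + ε) ≤
      (2 * R + 1) * E * ((q + y ^ 2) / ε + ε) := by gcongr
  linarith only [hε, hx, e3, e4, e5]

section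

variable {Ω : Type} [Fintype Ω]

theorem dot_le (x y : Ω → ℝ) : ∑ ω, x ω * y ω ≤ n1 x * n1 y := by
  unfold n1
  rw [Finset.sum_mul]
  refine Finset.sum_le_sum fun ω _ => (le_abs_self _).trans ?_
  rw [abs_mul]
  exact mul_le_mul_of_nonneg_left (abs_le_n1 y ω) (abs_nonneg _)

theorem n1_neg (x : Ω → ℝ) : n1 (-x) = n1 x := by simp only [n1, Pi.neg_apply, abs_neg]

theorem n1_sq_le (x : Ω → ℝ) : n1 x * n1 x ≤ Fintype.card Ω * ∑ ω, x ω ^ 2 := by
  have := sq_sum_le_card_mul_sum_sq (s := univ) (f := fun ω => |x ω|)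
  simpa only [n1, sq, ge_iff_le, card_univ, abs_mul_abs_self] using this

end

variable {A Ω I J : Type} [Fintype A] [Fintype Ω] [DecidableEq Ω] [Fintype I] [Fintype J]
  [Nonempty I] [Nonempty J] (G : Game A Ω I J)

open Classical in
theorem U_step (h w : ℕ → ℝ) (r n : ℕ) {c : ℝ} (hc : 0 ≤ c) (i : I) (j : J) {a : A}
    {μ : Ω → ℝ} (hμ : cut G a μ = μ) :
    U G h w 0 r n (μ ᵥ* G.step c i j) =
      U G h w 0 r n (μ + c • (cut G a (μ ᵥ* G.P i j) - μ)) +
        c * ∑ b ∈ univ.erase a, U G h w 0 r n (cut G b (μ ᵥ* G.P i j)) := by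
  rw [U_add, ← Finset.add_sum_erase _ _ (Finset.mem_univ a), vecMul_step, Finset.mul_sum]
  congr 1
  · congr 1
    funext ω
    have := congrFun hμ ω
    simp only [cut, Pi.add_apply, Pi.smul_apply, Pi.sub_apply, smul_eq_mul] at this ⊢
    split_ifs at this ⊢
    · rfl
    · rw [← this]; simp
  · refine Finset.sum_congr rfl fun b hb => ?_
    rw [← U_smul G h w hc]
    congr 1
    funext ω
    have := congrFun hμ ω
    have hb' := Finset.ne_of_mem_erase hb
    simp only [cut, Pi.add_apply, Pi.smul_apply, Pi.sub_apply, smul_eq_mul] at this ⊢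
    split_ifs at this ⊢ with h1 h2
    · exact absurd (h1.symm.trans h2) hb'
    · rw [← this]; simp
    · simp
    · simp

omit [Fintype A] [Fintype I] [Fintype J] [Nonempty I] [Nonempty J] in
theorem drift_facts {c : ℝ} (h0 : 0 ≤ c) (h1 : c ≤ 1) (i : I) (j : J) {a : A}
    {μ : Ω → ℝ} (hμ : cut G a μ = μ) (hn : n1 μ ≤ 1) :
    cut G a (μ + c • (cut G a (μ ᵥ* G.P i j) - μ)) = μ + c • (cut G a (μ ᵥ* G.P i j) - μ) ∧
    n1 (μ + c • (cut G a (μ ᵥ* G.P i j) - μ)) ≤ 1 ∧ n1 (cut G a (μ ᵥ* G.P i j) - μ) ≤ 2 := by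
  have e : μ + c • (cut G a (μ ᵥ* G.P i j) - μ) = cut G a (μ ᵥ* G.step c i j) := by
    rw [vecMul_step]
    funext ω
    have := congrFun hμ ω
    simp only [cut, Pi.add_apply, Pi.smul_apply, Pi.sub_apply, smul_eq_mul] at this ⊢
    split_ifs at this ⊢
    · rfl
    · rw [← this]; simp
  refine ⟨by rw [e, cut_cut], ?_, ?_⟩
  · rw [e]; exact (n1_cut_le G a _).trans ((n1_step G h0 h1 i j μ).trans hn)
  · have := n1_sub_le (cut G a (μ ᵥ* G.P i j)) μ
    have := n1_cut_le G a (μ ᵥ* G.P i j)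
    have := n1_P G i j μ
    linarith

theorem core_ind {R T δ ε γ : ℝ} (hR0 : 0 ≤ R) (hR : ∀ i j ω, |G.g i j ω| ≤ R) (hε : 0 < ε)
    (hδ1 : δ ≤ 1)
    (hγ : (R * T + R + 2) * Fintype.card Ω + R * T + 3 * R + 2 * Fintype.card A + 1 ≤ 2 * γ)
    (hδ : δ * (2 * Fintype.card A + 10 + 2 * γ * (13 + 2 * T)) ≤ ε * ε)
    {t s ρ ρ' : ℕ → ℝ} {N M : ℕ} (ht0 : 0 ≤ t 0) (hs0 : 0 ≤ s 0)
    (ht : ∀ n, 0 < dur t n ∧ dur t n ≤ δ) (hs : ∀ n, 0 < dur s n ∧ dur s n ≤ δ)
    (htN : t N ≤ T) (hsM : s M ≤ T) (hNM : |t N - s M| ≤ ε) (hρ : ∀ n, |ρ n| ≤ 1)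
    (hρ' : ∀ n, |ρ' n| ≤ 1) (hρρ : ∀ n ≤ N, ∀ m ≤ M, |ρ n - ρ' m| ≤ |t n - s m| + ε) (r : ℕ) :
    ∀ (n : ℕ), n + r = N → ∀ (r' m : ℕ), m + r' = M → ∀ (a : A) (μ ν : Ω → ℝ), cut G a μ = μ →
      cut G a ν = ν → n1 μ ≤ 1 → n1 ν ≤ 1 →
      U G (dur t) (fun n => ρ n * dur t n) 0 r n μ ≤
        U G (dur s) (fun n => ρ' n * dur s n) 0 r' m ν +
        (2 * R + 1) * EE γ (dur t) r n * EE γ (dur s) r' m *
          ((∑ ω, (μ ω - ν ω) ^ 2 + (t n - s m) ^ 2) / ε + ε) := by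
  classical
  have ht' : ∀ n, 0 ≤ dur t n := fun n => (ht n).1.le
  have hs' : ∀ n, 0 ≤ dur s n := fun n => (hs n).1.le
  have ht1 : ∀ n, dur t n ≤ 1 := fun n => (ht n).2.trans hδ1
  have hs1 : ∀ n, dur s n ≤ 1 := fun n => (hs n).2.trans hδ1
  have hT : 0 ≤ T := ht0.trans ((le_of_dur ht' (Nat.zero_le N)).trans htN)
  have hδ0 : 0 < δ := (ht 0).1.trans_le (ht 0).2
  have hγ0 : 0 ≤ γ := by
    have : 0 ≤ (R * T + R + 2) * Fintype.card Ω + R * T + 3 * R + 2 * Fintype.card A + 1 := by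
      positivity
    linarith
  induction r with
  | zero =>
    intro n hn r' m hm a μ ν _ _ _ hν
    have e1 := abs_U_le G hR0 hR hs' hs1 (fun n => ρ' n * dur s n) r' m ν
    have e2 := sum_abs_w hs' hρ' m r'
    rw [hm] at e2
    rw [add_zero] at hn
    subst hn
    have e3 : s M - s m ≤ |t n - s m| + ε := by
      have := le_abs_self (t n - s m); have := neg_abs_le (t n - s M); linarith
    have e4 : |U G (dur s) (fun n => ρ' n * dur s n) 0 r' m ν| ≤ R * (|t n - s m| + ε) :=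
      e1.trans ((mul_le_of_le_one_right (by positivity) hν).trans
        (mul_le_mul_of_nonneg_left (by linarith only [e2, e3]) hR0))
    have e5 := bdry (q := ∑ ω, (μ ω - ν ω) ^ 2) hR0 hε e4 (one_le_EE hγ0 hs' r' m) (by positivity)
    have := neg_abs_le (U G (dur s) (fun n => ρ' n * dur s n) 0 r' m ν)
    simp only [U, EE, Pi.zero_apply, mul_one]
    linarith only [e5, this]
  | succ r ih =>
    intro n hn r'
    induction r' with
    | zero =>
      intro m hm a μ ν _ _ hμ _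
      have e1 := abs_U_le G hR0 hR ht' ht1 (fun n => ρ n * dur t n) (r + 1) n μ
      have e2 := sum_abs_w ht' hρ n (r + 1)
      rw [hn] at e2
      rw [add_zero] at hm
      subst hm
      have e3 : t N - t n ≤ |t n - s m| + ε := by
        have := neg_abs_le (t n - s m); have := le_abs_self (t N - s m); linarith
      have e4 : |U G (dur t) (fun n => ρ n * dur t n) 0 (r + 1) n μ| ≤ R * (|t n - s m| + ε) :=
        e1.trans ((mul_le_of_le_one_right (by positivity) hμ).trans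
          (mul_le_mul_of_nonneg_left (by linarith only [e2, e3]) hR0))
      have e5 := bdry (q := ∑ ω, (μ ω - ν ω) ^ 2) hR0 hε e4 (one_le_EE hγ0 ht' (r + 1) n)
        (by positivity)
      have := le_abs_self (U G (dur t) (fun n => ρ n * dur t n) 0 (r + 1) n μ)
      rw [show U G (dur s) (fun n => ρ' n * dur s n) 0 0 m ν = 0 from rfl,
        show EE γ (dur s) 0 m = 1 from rfl]
      linarith only [e5, this]
    | succ r' ih' =>
      intro m hm a μ ν hμ hν hμ1 hν1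
      have hn' : n + 1 + r = N := by omega
      have hm' : m + 1 + r' = M := by omega
      set h := dur t n with hh
      set k := dur s m with hk
      have hh0 : 0 < h := (ht n).1
      have hk0 : 0 < k := (hs m).1
      set u0 := U G (dur t) (fun n => ρ n * dur t n) 0 (r + 1) n μ with hu0
      set v0 := U G (dur s) (fun n => ρ' n * dur s n) 0 (r' + 1) m ν with hv0
      set u1 := U G (dur t) (fun n => ρ n * dur t n) 0 r (n + 1) with hu1
      set v1 := U G (dur s) (fun n => ρ' n * dur s n) 0 r' (m + 1) with hv1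
      set E := (2 * R + 1) * EE γ (dur t) r (n + 1) * EE γ (dur s) r' (m + 1) with hE
      have hE1 : 1 ≤ E := by
        have e1 := one_le_EE hγ0 ht' r (n + 1)
        have e2 := one_le_EE hγ0 hs' r' (m + 1)
        exact one_le_mul_of_one_le_of_one_le
          (one_le_mul_of_one_le_of_one_le (by linarith only [hR0]) e1) e2
      set q := ∑ ω, (μ ω - ν ω) ^ 2 with hq
      have hq0 : 0 ≤ q := by positivity
      set y := t n - s m with hy
      set B := (q + y ^ 2) / ε + ε with hB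
      have htn : t (n + 1) = t n + h := by simp [hh, dur]
      have hsm : s (m + 1) = s m + k := by simp [hk, dur]
      have hyT : |y| ≤ T := by
        have a1 := le_of_dur ht' (Nat.zero_le n)
        have a2 := le_of_dur ht' (show n ≤ N by omega)
        have a3 := le_of_dur hs' (Nat.zero_le m)
        have a4 := le_of_dur hs' (show m ≤ M by omega)
        rw [abs_le]; constructor <;> linarith only [ht0, hsM, a1, a4, hs0, htN, a2, a3]
      have key : ∀ i j, k * mat G (ρ n * h) h u1 μ i j ≤ h * mat G (ρ' m * k) k v1 ν i j +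
          (k * v0 - h * u0 + (h + k) * (E * (1 + γ * h) * (1 + γ * k) * B)) := by
        intro i j
        obtain ⟨c1, c2, c3⟩ := drift_facts G hh0.le (ht1 n) i j hμ hμ1
        obtain ⟨c4, c5, c6⟩ := drift_facts G hk0.le (hs1 m) i j hν hν1
        set Dμ := cut G a (μ ᵥ* G.P i j) - μ with hDμ
        set Dν := cut G a (ν ᵥ* G.P i j) - ν with hDν
        have i1 := ih (n + 1) hn' (r' + 1) m hm a _ ν c1 hν c2 hν1
        have i2 := ih' (m + 1) hm' a μ _ hμ c4 hμ1 c5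
        have x2 : n1 (μ - ν) ≤ 2 := (n1_sub_le μ ν).trans (by linarith only [hμ1, hν1])
        have x0 := n1_nonneg (μ - ν)
        set x1 := n1 (μ - ν) with hx1
        have hL : R * ∑ l ∈ range r', |ρ' (m + 1 + l) * dur s (m + 1 + l)| ≤ R * T := by
          have a1 := sum_abs_w hs' hρ' (m + 1) r'
          have a3 := le_of_dur hs' (Nat.zero_le (m + 1))
          rw [hm'] at a1
          exact mul_le_mul_of_nonneg_left (by linarith only [hs0, hsM, a1, a3]) hR0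
        have i3 : ∑ b ∈ univ.erase a, u1 (cut G b (μ ᵥ* G.P i j)) ≤
            ∑ b ∈ univ.erase a, v1 (cut G b (ν ᵥ* G.P i j)) +
            (E * (Fintype.card A * ((y + h - k) ^ 2 / ε + ε)) + R * T * x1) := by
          have a0 : 0 ≤ E * ((y + h - k) ^ 2 / ε + ε) := by positivity
          have a1 : ∀ b, u1 (cut G b (μ ᵥ* G.P i j)) ≤ v1 (cut G b (ν ᵥ* G.P i j)) +
              (E * ((y + h - k) ^ 2 / ε + ε) + R * T * n1 (cut G b ((μ - ν) ᵥ* G.P i j))) := by
            intro b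
            have b1 := (n1_cut_le G b _).trans ((n1_P G i j μ).trans hμ1)
            have b2 := ih (n + 1) hn' r' (m + 1) hm' b _ _ (cut_cut G b _) (cut_cut G b _) b1 b1
            have b3 := U_lip G hR0 hR hs' hs1 (fun n => ρ' n * dur s n) r' (m + 1)
              (cut G b (μ ᵥ* G.P i j)) (cut G b (ν ᵥ* G.P i j))
            rw [← cut_sub, ← Matrix.sub_vecMul] at b3
            have b4 := mul_le_mul_of_nonneg_right hL
              (n1_nonneg (cut G b ((μ - ν) ᵥ* G.P i j)))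
            simp only [sub_self, ne_eq, OfNat.ofNat_ne_zero, not_false_eq_true, zero_pow,
              Finset.sum_const_zero, zero_add] at b2
            rw [htn, hsm, show t n + h - (s m + k) = y + h - k by rw [hy]; ring] at b2
            linarith only [b3, b4, b2]
          have a2 : ∑ b ∈ univ.erase a, (E * ((y + h - k) ^ 2 / ε + ε) +
              R * T * n1 (cut G b ((μ - ν) ᵥ* G.P i j))) ≤
              ∑ b, (E * ((y + h - k) ^ 2 / ε + ε) +
              R * T * n1 (cut G b ((μ - ν) ᵥ* G.P i j))) :=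
            Finset.sum_le_sum_of_subset_of_nonneg (Finset.subset_univ _) fun b _ _ =>
              add_nonneg a0 (mul_nonneg (by positivity) (n1_nonneg _))
          rw [Finset.sum_add_distrib (s := univ), ← Finset.mul_sum (s := univ) (a := R * T),
            sum_n1_cut, Finset.sum_const, Finset.card_univ, nsmul_eq_mul] at a2
          have a3 := Finset.sum_le_sum fun b (_ : b ∈ univ.erase a) => a1 b
          rw [Finset.sum_add_distrib] at a3
          have a4 := mul_le_mul_of_nonneg_left (n1_P G i j (μ - ν)) (mul_nonneg hR0 hT)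
          linarith only [a2, a3, a4]
        have i4 : ρ n * pay G i j μ - ρ' m * pay G i j ν ≤ R * x1 + R * (|y| + ε) := by
          have a1 := abs_pay_le G hR i j (μ - ν)
          have a2 := (abs_pay_le G hR i j ν).trans (mul_le_of_le_one_right hR0 hν1)
          have a3 := hρρ n (by omega) m (by omega)
          have a4 : ρ n * pay G i j (μ - ν) ≤ 1 * (R * x1) :=
            (le_abs_self _).trans (by
              rw [abs_mul]; exact mul_le_mul (hρ n) a1 (abs_nonneg _) zero_le_one)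
          have a5 : (ρ n - ρ' m) * pay G i j ν ≤ (|y| + ε) * R :=
            (le_abs_self _).trans (by
              rw [abs_mul]
              exact mul_le_mul a3 a2 (abs_nonneg _) (add_nonneg (abs_nonneg _) hε.le))
          rw [pay_sub] at a4
          linarith only [a4, a5]
        set α := ∑ ω, (μ ω - ν ω) * Dμ ω with hα
        set β := ∑ ω, (μ ω - ν ω) * Dν ω with hβ
        have s1 : ∑ ω, Dμ ω * Dμ ω ≤ 4 :=
          le_four (dot_le Dμ Dμ) c3 c3 (n1_nonneg _) (n1_nonneg _)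
        have s2 : ∑ ω, Dν ω * Dν ω ≤ 4 :=
          le_four (dot_le Dν Dν) c6 c6 (n1_nonneg _) (n1_nonneg _)
        have s3 : α ≤ 4 := le_four (dot_le (μ - ν) Dμ) x2 c3 x0 (n1_nonneg _)
        have s4 : -β ≤ 4 := by
          have := dot_le (μ - ν) (-Dν)
          rw [n1_neg] at this
          simp only [Pi.neg_apply, mul_neg, Finset.sum_neg_distrib, Pi.sub_apply] at this
          exact le_four this x2 c6 x0 (n1_nonneg _)
        have s6 : x1 * x1 ≤ Fintype.card Ω * q := n1_sq_le (μ - ν)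
        have s5 : α - β ≤ Fintype.card Ω * q := by
          have a1 := dot_le (μ - ν) (cut G a ((μ - ν) ᵥ* G.P i j))
          have a2 := (n1_cut_le G a _).trans (n1_P G i j (μ - ν))
          have a3 := mul_le_mul_of_nonneg_left a2 x0
          have a4 : α - β = ∑ ω, (μ - ν) ω * cut G a ((μ - ν) ᵥ* G.P i j) ω - q := by
            rw [hα, hβ, hq, Matrix.sub_vecMul, cut_sub, ← Finset.sum_sub_distrib,
              ← Finset.sum_sub_distrib]
            refine Finset.sum_congr rfl fun ω _ => ?_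
            simp only [hDμ, hDν, Pi.sub_apply]; ring
          linarith only [hq0, s6, a1, a3, a4]
        set d1 := (2 * α + 2 * y + h * (∑ ω, Dμ ω * Dμ ω + 1)) / ε with hd1
        set d2 := (-2 * β - 2 * y + k * (∑ ω, Dν ω * Dν ω + 1)) / ε with hd2
        have q1 : (∑ ω, ((μ + h • Dμ) ω - ν ω) ^ 2 + (t (n + 1) - s m) ^ 2) / ε + ε =
            B + h * d1 := by
          have : ∑ ω, ((μ + h • Dμ) ω - ν ω) ^ 2 =
              q + 2 * h * α + h * h * ∑ ω, Dμ ω * Dμ ω := by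
            rw [hq, hα, Finset.mul_sum, Finset.mul_sum, ← Finset.sum_add_distrib,
              ← Finset.sum_add_distrib]
            refine Finset.sum_congr rfl fun ω _ => ?_
            simp only [Pi.add_apply, Pi.smul_apply, smul_eq_mul]; ring
          rw [this, htn, hB, hd1, hy]; field_simp; ring
        have q2 : (∑ ω, (μ ω - (ν + k • Dν) ω) ^ 2 + (t n - s (m + 1)) ^ 2) / ε + ε =
            B + k * d2 := by
          have : ∑ ω, (μ ω - (ν + k • Dν) ω) ^ 2 =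
              q - 2 * k * β + k * k * ∑ ω, Dν ω * Dν ω := by
            rw [hq, hβ, Finset.mul_sum, Finset.mul_sum, ← Finset.sum_sub_distrib,
              ← Finset.sum_add_distrib]
            refine Finset.sum_congr rfl fun ω _ => ?_
            simp only [Pi.add_apply, Pi.smul_apply, smul_eq_mul]; ring
          rw [this, hsm, hB, hd2, hy]; field_simp; ring
        rw [q1] at i1
        rw [q2] at i2
        have hnum := numer2 (S1 := ∑ ω, Dμ ω * Dμ ω) (S2 := ∑ ω, Dν ω * Dν ω) (α := α) (β := β)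
          (y := y) (x1 := x1) (q := q) hR0 hT hε hδ1 (Nat.cast_nonneg _) (Nat.cast_nonneg _) hγ hδ
          hh0 hk0 (ht n).2 (hs m).2 hE1 hq0 x0 hyT s1 s2 s3 s4 s5 s6
        rw [← hd1, ← hd2, ← hB] at hnum
        simp only [mat]
        rw [hu1, hv1, U_step G _ _ _ _ hh0.le i j hμ, U_step G _ _ _ _ hk0.le i j hν,
          ← hu1, ← hv1, ← hDμ, ← hDν]
        simp only [EE] at i1 i2
        have j1 := mul_le_mul_of_nonneg_left i1 hk0.le
        have j2 := mul_le_mul_of_nonneg_left i2 hh0.le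
        have j3 := mul_le_mul_of_nonneg_left i3 (mul_pos hh0 hk0).le
        have j4 := mul_le_mul_of_nonneg_left i4 (mul_pos hh0 hk0).le
        rw [hE] at hnum j3 ⊢
        linarith only [hnum, j1, j2, j3, j4]
      have fin := val_le hk0.le hh0.le key
      rw [hu1, hv1, ← U_single G (dur t) (fun n => ρ n * dur t n) r n hμ,
        ← U_single G (dur s) (fun n => ρ' n * dur s n) r' m hν, ← hu0, ← hv0] at fin
      have hpos : 0 < h + k := by linarith only [hh0, hk0]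
      rw [← mul_le_mul_iff_right₀ hpos]
      simp only [EE]
      rw [hE] at fin
      linarith only [fin]

theorem core {R : ℝ} (hR0 : 0 ≤ R) (hR : ∀ i j ω, |G.g i j ω| ≤ R) {T : ℝ} (hT : 0 ≤ T)
    {η : ℝ} (hη : 0 < η) : ∃ ε > 0, ∃ δ > 0, δ ≤ 1 ∧ ∀ (t s ρ ρ' : ℕ → ℝ) (N M : ℕ),
      t 0 = 0 → s 0 = 0 → (∀ n, 0 < dur t n ∧ dur t n ≤ δ) →
      (∀ n, 0 < dur s n ∧ dur s n ≤ δ) → t N ≤ T → s M ≤ T → |t N - s M| ≤ ε →
      (∀ n, |ρ n| ≤ 1) → (∀ n, |ρ' n| ≤ 1) →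
      (∀ n ≤ N, ∀ m ≤ M, |ρ n - ρ' m| ≤ |t n - s m| + ε) → ∀ μ, n1 μ ≤ 1 →
      U G (dur t) (fun n => ρ n * dur t n) 0 N 0 μ ≤
        U G (dur s) (fun n => ρ' n * dur s n) 0 M 0 μ + η := by
  set γ : ℝ := ((R * T + R + 2) * Fintype.card Ω + R * T + 3 * R + 2 * Fintype.card A + 1) / 2
    with hγ
  have hγ0 : 0 ≤ γ := by positivity
  set K : ℝ := (Fintype.card A + 1) * ((2 * R + 1) * Real.exp (γ * T) * Real.exp (γ * T))
    with hK
  have hK0 : 0 < K := by positivity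
  set c : ℝ := 2 * Fintype.card A + 10 + 2 * γ * (13 + 2 * T) with hc
  have hc0 : 0 < c := by positivity
  have hε : 0 < η / K := by positivity
  refine ⟨η / K, hε, min 1 (η / K * (η / K) / c), by positivity, min_le_left _ _, ?_⟩
  intro t s ρ ρ' N M ht0 hs0 ht hs htN hsM hNM hρ hρ' hρρ μ hμ
  have hδ : min 1 (η / K * (η / K) / c) * c ≤ η / K * (η / K) := by
    rw [← le_div_iff₀ hc0]; exact min_le_right _ _
  have ht' : ∀ n, 0 ≤ dur t n := fun n => (ht n).1.le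
  have hs' : ∀ n, 0 ≤ dur s n := fun n => (hs n).1.le
  have e1 : EE γ (dur t) N 0 ≤ Real.exp (γ * T) :=
    (EE_le hγ0 ht' N 0).trans (by rw [zero_add, ht0, sub_zero]; gcongr)
  have e2 : EE γ (dur s) M 0 ≤ Real.exp (γ * T) :=
    (EE_le hγ0 hs' M 0).trans (by rw [zero_add, hs0, sub_zero]; gcongr)
  have e3 := one_le_EE hγ0 ht' N 0
  have e4 := one_le_EE hγ0 hs' M 0
  have e5 : ∀ a, U G (dur t) (fun n => ρ n * dur t n) 0 N 0 (cut G a μ) ≤
      U G (dur s) (fun n => ρ' n * dur s n) 0 M 0 (cut G a μ) +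
      (2 * R + 1) * Real.exp (γ * T) * Real.exp (γ * T) * (η / K) := by
    intro a
    have b1 := (n1_cut_le G a μ).trans hμ
    have := core_ind G hR0 hR hε (min_le_left _ _) (γ := γ) (by rw [hγ]; linarith only []) hδ ht0.ge
      hs0.ge ht hs htN hsM hNM hρ hρ' hρρ N 0 (zero_add N) M 0 (zero_add M) a _ _
      (cut_cut G a μ) (cut_cut G a μ) b1 b1
    simp only [sub_self, ne_eq, OfNat.ofNat_ne_zero, not_false_eq_true, zero_pow,
      Finset.sum_const_zero, zero_add, ht0, hs0, zero_div] at this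
    refine this.trans ?_
    gcongr
  rw [U_add G _ _ N, U_add G _ _ M]
  have e6 := Finset.sum_le_sum fun a (_ : a ∈ univ) => e5 a
  rw [Finset.sum_add_distrib, Finset.sum_const, Finset.card_univ, nsmul_eq_mul] at e6
  have e7 : K * (η / K) = η := mul_div_cancel₀ _ hK0.ne'
  have e8 : 0 ≤ (2 * R + 1) * Real.exp (γ * T) * Real.exp (γ * T) * (η / K) := by positivity
  rw [hK] at e7
  rw [hK] at e6 e8
  linarith only [e6, e7, e8]

end Pool.Agent.MP_3fd3f5_an.H78

end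

-- part MP_3fd3f5_an.H78.Game
section

namespace Pool.Agent.MP_3fd3f5_an.H78

open Finset Matrix

theorem exists_isValue {S T : Type} (γ : S → T → ℝ)
    (h : ∀ ε > 0, ∃ u : ℝ, (∃ σ, ∀ τ, u - ε ≤ γ σ τ) ∧ ∃ τ, ∀ σ, γ σ τ ≤ u + ε) :
    ∃ v, IsValue γ v := by
  obtain ⟨u0, ⟨σ0, h0⟩, τ0, h1⟩ := h 1 one_pos
  have hne : {x : ℝ | ∃ σ, ∀ τ, x ≤ γ σ τ}.Nonempty := ⟨_, σ0, h0⟩
  have hb : BddAbove {x : ℝ | ∃ σ, ∀ τ, x ≤ γ σ τ} :=
    ⟨u0 + 1, fun x ⟨σ, hσ⟩ => (hσ τ0).trans (h1 σ)⟩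
  refine ⟨sSup {x : ℝ | ∃ σ, ∀ τ, x ≤ γ σ τ}, fun ε hε => ?_, fun ε hε => ?_⟩
  · obtain ⟨x, ⟨σ, hσ⟩, hx⟩ := exists_lt_of_lt_csSup hne (sub_lt_self _ hε)
    exact ⟨σ, fun τ => hx.le.trans (hσ τ)⟩
  · obtain ⟨u, ⟨σ, hσ⟩, τ, hτ⟩ := h (ε / 2) (by positivity)
    have := le_csSup hb (⟨σ, hσ⟩ : u - ε / 2 ∈ {x : ℝ | ∃ σ, ∀ τ, x ≤ γ σ τ})
    exact ⟨τ, fun σ' => by linarith [hτ σ']⟩

theorem isValue_close {S T : Type} {γ : S → T → ℝ} {v u c : ℝ} (hv : IsValue γ v)
    (h1 : ∃ σ, ∀ τ, u - c ≤ γ σ τ) (h2 : ∃ τ, ∀ σ, γ σ τ ≤ u + c) : |v - u| ≤ c := by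
  obtain ⟨σ, hσ⟩ := h1
  obtain ⟨τ, hτ⟩ := h2
  rw [abs_le]
  constructor
  · refine le_of_forall_pos_le_add fun ε hε => ?_
    obtain ⟨τ', hτ'⟩ := hv.2 ε hε
    linarith [hσ τ', hτ' σ]
  · refine le_of_forall_pos_le_add fun ε hε => ?_
    obtain ⟨σ', hσ'⟩ := hv.1 ε hε
    linarith [hσ' τ, hτ σ']

theorem tsum_tail {w a : ℕ → ℝ} {R θ : ℝ} {N : ℕ} (hw : ∀ n, 0 ≤ w n) (ha : ∀ n, |a n| ≤ R)
    (hθ : ∀ M, ∑ k ∈ range M, w (N + k) ≤ θ) :
    |∑' n, w n * a n - ∑ n ∈ range N, w n * a n| ≤ R * θ := by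
  have hR : 0 ≤ R := (abs_nonneg _).trans (ha 0)
  have s1 : Summable fun k => w (k + N) :=
    summable_of_sum_range_le (c := θ) (fun _ => hw _) fun M => by
      simpa [add_comm N] using hθ M
  have hb : ∀ n, ‖w n * a n‖ ≤ R * w n := fun n => by
    rw [Real.norm_eq_abs, abs_mul, abs_of_nonneg (hw n), mul_comm]
    exact mul_le_mul_of_nonneg_right (ha n) (hw n)
  have s2 : Summable fun n => w n * a n :=
    Summable.of_norm_bounded (((summable_nat_add_iff N).1 s1).mul_left R) hb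
  rw [← s2.sum_add_tsum_nat_add N, add_sub_cancel_left]
  have s3 := tsum_of_norm_bounded (s1.mul_left R).hasSum fun k => hb (k + N)
  rw [tsum_mul_left] at s3
  refine s3.trans (mul_le_mul_of_nonneg_left ?_ hR)
  exact s1.tsum_le_of_sum_range_le fun M => by simpa [add_comm N] using hθ M

variable {A Ω I J : Type} [Fintype A] [Fintype Ω] [DecidableEq Ω] [Fintype I] [Fintype J]
  [Nonempty I] [Nonempty J] (G : Game A Ω I J)

/-- The unnormalised belief after a public history. -/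
noncomputable def meas (h : ℕ → ℝ) (p : Ω → ℝ) : List (A × I × J) → Ω → ℝ
  | [] => p
  | x :: H => cut G x.1 (meas h p H) ᵥ* G.step (h H.length) x.2.1 x.2.2

/-- The payoff of the next `r` stages. -/
noncomputable def payN (h w : ℕ → ℝ) (σ : Strategy A I J I) (τ : Strategy A I J J) (r : ℕ)
    (H : List (A × I × J)) (μ : Ω → ℝ) : ℝ :=
  ∑ m ∈ range r, w (H.length + m) * ∑ ω, μ ω * G.stagePay h σ τ m H ω

omit [DecidableEq Ω] [Nonempty I] [Nonempty J] in
theorem sum_swap3 (ν : Ω → ℝ) (c : I → J → ℝ) (X : I → J → Ω → ℝ) :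
    ∑ ω, ν ω * ∑ i, ∑ j, c i j * X i j ω = ∑ i, ∑ j, c i j * ∑ ω, ν ω * X i j ω := by
  simp only [Finset.mul_sum]
  rw [Finset.sum_comm]
  refine Finset.sum_congr rfl fun i _ => ?_
  rw [Finset.sum_comm]
  exact Finset.sum_congr rfl fun j _ => Finset.sum_congr rfl fun ω _ => by ring

omit [DecidableEq Ω] in
theorem sum_vecMul (ν : Ω → ℝ) (S : Matrix Ω Ω ℝ) (Y : Ω → ℝ) :
    ∑ ω, ν ω * ∑ ω', S ω ω' * Y ω' = ∑ ω', (ν ᵥ* S) ω' * Y ω' := by
  simp only [Matrix.vecMul, dotProduct, Finset.mul_sum, Finset.sum_mul]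
  rw [Finset.sum_comm]
  exact Finset.sum_congr rfl fun _ _ => Finset.sum_congr rfl fun _ _ => by ring

omit [Nonempty I] [Nonempty J] in
theorem payN_succ (h w : ℕ → ℝ) (σ : Strategy A I J I) (τ : Strategy A I J J) (r : ℕ)
    (H : List (A × I × J)) (μ : Ω → ℝ) : payN G h w σ τ (r + 1) H μ =
      ∑ a, ∑ i, ∑ j, (σ H a).1 i * (τ H a).1 j *
        mat G (w H.length) (h H.length) (payN G h w σ τ r ((a, i, j) :: H)) (cut G a μ) i j := by
  have e0 : ∑ ω, μ ω * G.stagePay h σ τ 0 H ω =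
      ∑ a, ∑ i, ∑ j, (σ H a).1 i * (τ H a).1 j * pay G i j (cut G a μ) := by
    simp only [Game.stagePay]
    rw [sum_cut G μ fun a ω => ∑ i, ∑ j, (σ H a).1 i * (τ H a).1 j * G.g i j ω]
    exact Finset.sum_congr rfl fun a _ => sum_swap3 _ _ _
  have e1 : ∀ m, ∑ ω, μ ω * G.stagePay h σ τ (m + 1) H ω =
      ∑ a, ∑ i, ∑ j, (σ H a).1 i * (τ H a).1 j * ∑ ω', (cut G a μ ᵥ* G.step (h H.length) i j) ω' *
        G.stagePay h σ τ m ((a, i, j) :: H) ω' := by
    intro m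
    simp only [Game.stagePay]
    rw [sum_cut G μ fun a ω => ∑ i, ∑ j, (σ H a).1 i * (τ H a).1 j *
      ∑ ω', G.step (h H.length) i j ω ω' * G.stagePay h σ τ m ((a, i, j) :: H) ω']
    refine Finset.sum_congr rfl fun a _ => (sum_swap3 _ _ _).trans ?_
    simp only [sum_vecMul]
  simp only [payN, mat]
  rw [Finset.sum_range_succ', e0]
  simp only [e1, add_zero, List.length_cons, mul_add, Finset.sum_add_distrib]
  rw [add_comm]
  congr 1
  · simp only [Finset.mul_sum]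
    exact Finset.sum_congr rfl fun _ _ => Finset.sum_congr rfl fun _ _ =>
      Finset.sum_congr rfl fun _ _ => by ring
  · simp only [Finset.mul_sum (s := range r), Finset.mul_sum (s := (univ : Finset A)),
      Finset.mul_sum (s := (univ : Finset I)), Finset.mul_sum (s := (univ : Finset J))]
    rw [Finset.sum_comm]
    refine Finset.sum_congr rfl fun a _ => ?_
    rw [Finset.sum_comm]
    refine Finset.sum_congr rfl fun i _ => ?_
    rw [Finset.sum_comm]
    refine Finset.sum_congr rfl fun j _ => Finset.sum_congr rfl fun m _ => ?_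
    rw [show H.length + 1 + m = H.length + (m + 1) by ring]
    ring

theorem guar1 (h w : ℕ → ℝ) (p : Ω → ℝ) (N : ℕ) : ∃ σ : Strategy A I J I,
    ∀ τ : Strategy A I J J, U G h w 0 N 0 p ≤ payN G h w σ τ N [] p := by
  choose x hx using fun (H : List (A × I × J)) (a : A) => val_opt1 (mat G (w H.length) (h H.length)
    (U G h w 0 (N - (H.length + 1)) (H.length + 1)) (cut G a (meas G h p H)))
  refine ⟨x, fun τ => ?_⟩
  have key : ∀ r (H : List (A × I × J)), H.length + r = N →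
      U G h w 0 r H.length (meas G h p H) ≤ payN G h w x τ r H (meas G h p H) := by
    intro r
    induction r with
    | zero => intro H _; simp only [U, Pi.zero_apply, payN, range_zero, sum_empty, Std.le_refl]
    | succ r ih =>
      intro H hH
      rw [payN_succ]
      simp only [U]
      refine Finset.sum_le_sum fun a _ => ?_
      have e := hx H a
      rw [show N - (H.length + 1) = r by omega] at e
      refine (le_mix (x H a) (τ H a) e).trans (mix_mono _ _ fun i j => ?_)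
      have := ih ((a, i, j) :: H) (by simp only [List.length_cons]; omega)
      simpa only [mat, add_le_add_iff_left, ge_iff_le, List.length_cons, meas] using this
  exact key N [] (by simp)

theorem guar2 (h w : ℕ → ℝ) (p : Ω → ℝ) (N : ℕ) : ∃ τ : Strategy A I J J,
    ∀ σ : Strategy A I J I, payN G h w σ τ N [] p ≤ U G h w 0 N 0 p := by
  choose y hy using fun (H : List (A × I × J)) (a : A) => val_opt2 (mat G (w H.length) (h H.length)
    (U G h w 0 (N - (H.length + 1)) (H.length + 1)) (cut G a (meas G h p H)))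
  refine ⟨y, fun σ => ?_⟩
  have key : ∀ r (H : List (A × I × J)), H.length + r = N →
      payN G h w σ y r H (meas G h p H) ≤ U G h w 0 r H.length (meas G h p H) := by
    intro r
    induction r with
    | zero => intro H _; simp only [payN, range_zero, sum_empty, U, Pi.zero_apply, Std.le_refl]
    | succ r ih =>
      intro H hH
      rw [payN_succ]
      simp only [U]
      refine Finset.sum_le_sum fun a _ => ?_
      have e := hy H a
      rw [show N - (H.length + 1) = r by omega] at e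
      refine (mix_mono _ _ fun i j => ?_).trans (mix_le (σ H a) (y H a) e)
      have := ih ((a, i, j) :: H) (by simp only [List.length_cons]; omega)
      simpa only [mat, add_le_add_iff_left, ge_iff_le, meas, List.length_cons] using this
  exact key N [] (by simp)

omit [Fintype A] [Nonempty I] [Nonempty J] in
theorem abs_stagePay {R : ℝ} (hR : ∀ i j ω, |G.g i j ω| ≤ R) {h : ℕ → ℝ} (h0 : ∀ n, 0 ≤ h n)
    (h1 : ∀ n, h n ≤ 1) (σ : Strategy A I J I) (τ : Strategy A I J J) (m : ℕ) :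
    ∀ H ω, |G.stagePay h σ τ m H ω| ≤ R := by
  have mix : ∀ (x : stdSimplex ℝ I) (y : stdSimplex ℝ J) (M : I → J → ℝ), (∀ i j, |M i j| ≤ R) →
      |∑ i, ∑ j, x.1 i * y.1 j * M i j| ≤ R := by
    intro x y M hM
    have e1 := mix_mono x y (M := M) (M' := fun _ _ => R) fun i j => (abs_le.1 (hM i j)).2
    have e2 := mix_mono x y (M := fun _ _ => -R) (M' := M) fun i j => (abs_le.1 (hM i j)).1
    rw [mix_const] at e1 e2
    exact abs_le.2 ⟨e2, e1⟩
  induction m with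
  | zero => intro H ω; exact mix _ _ _ fun i j => hR i j ω
  | succ m ih =>
    intro H ω
    refine mix _ _ _ fun i j => ?_
    obtain ⟨hp, hs⟩ := step_stoch G (h0 H.length) (h1 H.length) i j
    refine (Finset.abs_sum_le_sum_abs _ _).trans ?_
    calc _ ≤ ∑ ω', G.step (h H.length) i j ω ω' * R := Finset.sum_le_sum fun ω' _ => by
          rw [abs_mul, abs_of_nonneg (hp ω ω')]
          exact mul_le_mul_of_nonneg_left (ih _ _) (hp ω ω')
      _ = R := by rw [← Finset.sum_mul, hs, one_mul]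

theorem guar {R θ : ℝ} (hR : ∀ i j ω, |G.g i j ω| ≤ R) {h w : ℕ → ℝ} (h0 : ∀ n, 0 ≤ h n)
    (h1 : ∀ n, h n ≤ 1) (hw : ∀ n, 0 ≤ w n) (p : stdSimplex ℝ Ω) {N : ℕ}
    (hθ : ∀ M, ∑ k ∈ range M, w (N + k) ≤ θ) :
    (∃ σ, ∀ τ, U G h w 0 N 0 p.1 - R * θ ≤ G.payoff p h w σ τ) ∧
      ∃ τ, ∀ σ, G.payoff p h w σ τ ≤ U G h w 0 N 0 p.1 + R * θ := by
  have e : ∀ σ τ, |G.payoff p h w σ τ - payN G h w σ τ N [] p.1| ≤ R * θ := by
    intro σ τ
    simp only [Game.payoff, payN, List.length_nil, zero_add]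
    refine tsum_tail hw (fun n => (Finset.abs_sum_le_sum_abs _ _).trans ?_) hθ
    calc _ ≤ ∑ ω, p.1 ω * R := Finset.sum_le_sum fun ω _ => by
          rw [abs_mul, abs_of_nonneg (p.2.1 ω)]
          exact mul_le_mul_of_nonneg_left (abs_stagePay G hR h0 h1 σ τ n [] ω) (p.2.1 ω)
      _ = R := by rw [← Finset.sum_mul, p.2.2, one_mul]
  obtain ⟨σ, hσ⟩ := guar1 G h w p.1 N
  obtain ⟨τ, hτ⟩ := guar2 G h w p.1 N
  exact ⟨⟨σ, fun τ' => by linarith [hσ τ', (abs_le.1 (e σ τ')).1]⟩,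
    ⟨τ, fun σ' => by linarith [hτ σ', (abs_le.1 (e σ' τ)).2]⟩⟩

/-- If the tails of the weights vanish, the game has a value, close to the truncated values. -/
theorem exists_value {R : ℝ} (hR0 : 0 ≤ R) (hR : ∀ i j ω, |G.g i j ω| ≤ R) {h w : ℕ → ℝ}
    (h0 : ∀ n, 0 ≤ h n) (h1 : ∀ n, h n ≤ 1) (hw : ∀ n, 0 ≤ w n) (p : stdSimplex ℝ Ω)
    (ht : ∀ θ > 0, ∃ N, ∀ M, ∑ k ∈ range M, w (N + k) ≤ θ) :
    ∃ v, IsValue (G.payoff p h w) v ∧ ∀ N θ, (∀ M, ∑ k ∈ range M, w (N + k) ≤ θ) →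
      |v - U G h w 0 N 0 p.1| ≤ R * θ := by
  obtain ⟨v, hv⟩ := exists_isValue (G.payoff p h w) fun ε hε => by
    obtain ⟨N, hN⟩ := ht (ε / (R + 1)) (by positivity)
    obtain ⟨⟨σ, hσ⟩, τ, hτ⟩ := guar G hR h0 h1 hw p hN
    have : R * (ε / (R + 1)) ≤ ε := by
      rw [← mul_div_assoc, div_le_iff₀ (by positivity)]; linarith only [hε]
    exact ⟨U G h w 0 N 0 p.1, ⟨σ, fun τ' => by linarith [hσ τ']⟩,
      τ, fun σ' => by linarith [hτ σ']⟩
  exact ⟨v, hv, fun N θ hθ =>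
    isValue_close hv (guar G hR h0 h1 hw p hθ).1 (guar G hR h0 h1 hw p hθ).2⟩

end Pool.Agent.MP_3fd3f5_an.H78

end

-- part MP_3fd3f5_an.H78.Lim
section

namespace Pool.Agent.MP_3fd3f5_an.H78

open Finset Matrix Filter Topology

theorem exists_ulim {P X : Type} (Fine : ℝ → P → Prop)
    (mono : ∀ δ δ' π, δ ≤ δ' → Fine δ π → Fine δ' π) (ne : ∀ δ > 0, ∃ π, Fine δ π)
    (F : P → X → ℝ)
    (hc : ∀ ε > 0, ∃ δ > 0, ∀ π π', Fine δ π → Fine δ π' → ∀ x, F π x ≤ F π' x + ε) :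
    ∃ v : X → ℝ, ∀ ε > 0, ∃ δ > 0, ∀ π, Fine δ π → ∀ x, |F π x - v x| ≤ ε := by
  choose π hπ using fun k : ℕ => ne (1 / ((k : ℝ) + 1)) (by positivity)
  have ev : ∀ δ > 0, ∃ K, ∀ k ≥ K, Fine δ (π k) := by
    intro δ hδ
    obtain ⟨K, hK⟩ := exists_nat_one_div_lt hδ
    refine ⟨K, fun k hk => mono _ _ _ (le_trans ?_ hK.le) (hπ k)⟩
    gcongr
  have hcs : ∀ x, CauchySeq fun k => F (π k) x := by
    intro x
    rw [Metric.cauchySeq_iff']
    intro ε hε
    obtain ⟨δ, hδ, h⟩ := hc (ε / 2) (by positivity)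
    obtain ⟨K, hK⟩ := ev δ hδ
    refine ⟨K, fun k hk => ?_⟩
    have e1 := h _ _ (hK k hk) (hK K le_rfl) x
    have e2 := h _ _ (hK K le_rfl) (hK k hk) x
    rw [Real.dist_eq, abs_lt]; constructor <;> linarith only [hε, e2, e1]
  choose v hv using fun x => cauchySeq_tendsto_of_complete (hcs x)
  refine ⟨v, fun ε hε => ?_⟩
  obtain ⟨δ, hδ, h⟩ := hc ε hε
  obtain ⟨K, hK⟩ := ev δ hδ
  refine ⟨δ, hδ, fun π' hπ' x => ?_⟩
  have e1 : F π' x - ε ≤ v x := ge_of_tendsto (hv x) (eventually_atTop.2 ⟨K, fun k hk => by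
    linarith [h _ _ hπ' (hK k hk) x]⟩)
  have e2 : v x ≤ F π' x + ε := le_of_tendsto (hv x) (eventually_atTop.2 ⟨K, fun k hk =>
    h _ _ (hK k hk) hπ' x⟩)
  rw [abs_le]; constructor <;> linarith

/-- Fine finite partitions ending near `T`. -/
def FineH (T δ : ℝ) (π : (ℕ → ℝ) × ℕ) : Prop :=
  π.1 0 = 0 ∧ (∀ n, 0 < dur π.1 n ∧ dur π.1 n ≤ δ) ∧ |π.1 π.2 - T| ≤ δ

/-- Fine and long finite partitions. -/
def FineD (δ : ℝ) (π : (ℕ → ℝ) × ℕ) : Prop :=
  π.1 0 = 0 ∧ (∀ n, 0 < dur π.1 n ∧ dur π.1 n ≤ δ) ∧ 1 / δ ≤ π.1 π.2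

/-- Discount factor. -/
def disc (lam : ℝ) (t : ℕ → ℝ) (n : ℕ) : ℝ := ∏ k ∈ range n, (1 - lam * dur t k)

theorem dur_unif (h : ℝ) (n : ℕ) : dur (fun n : ℕ => n * h) n = h := by
  simp only [dur]; push_cast; ring

theorem exists_step {T δ : ℝ} (hT : 0 < T) (hδ : 0 < δ) :
    ∃ (k : ℕ) (h : ℝ), 0 < h ∧ h ≤ δ ∧ k * h = T := by
  obtain ⟨k, hk⟩ := exists_nat_gt (T / δ)
  have hk0 : (0 : ℝ) < k := lt_trans (by positivity) hk
  refine ⟨k, T / k, by positivity, ?_, by field_simp⟩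
  rw [div_le_iff₀ hk0]
  rw [div_lt_iff₀ hδ] at hk
  linarith

theorem exH {T δ : ℝ} (hT : 0 < T) (hδ : 0 < δ) : ∃ π, FineH T δ π ∧ π.1 π.2 = T := by
  obtain ⟨k, h, h0, h1, h2⟩ := exists_step hT hδ
  exact ⟨(fun n : ℕ => n * h, k), ⟨by simp, fun n => by simp [dur_unif, h0, h1],
    by simp [h2, hδ.le]⟩, h2⟩

theorem exD {δ : ℝ} (hδ : 0 < δ) : ∃ π, FineD δ π := by
  obtain ⟨k, h, h0, h1, h2⟩ := exists_step (one_div_pos.2 hδ) hδ
  exact ⟨(fun n : ℕ => n * h, k), by simp, fun n => by simp [dur_unif, h0, h1], h2.ge⟩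

theorem FineH.mono {T δ δ' : ℝ} {π : (ℕ → ℝ) × ℕ} (h : δ ≤ δ') (H : FineH T δ π) :
    FineH T δ' π := ⟨H.1, fun n => ⟨(H.2.1 n).1, (H.2.1 n).2.trans h⟩, H.2.2.trans h⟩

theorem FineD.mono {δ δ' : ℝ} {π : (ℕ → ℝ) × ℕ} (h : δ ≤ δ') (H : FineD δ π) :
    FineD δ' π := ⟨H.1, fun n => ⟨(H.2.1 n).1, (H.2.1 n).2.trans h⟩,
      (one_div_le_one_div_of_le ((H.2.1 0).1.trans_le (H.2.1 0).2) h).trans H.2.2⟩

theorem abs_exp_neg_sub {a b : ℝ} (ha : 0 ≤ a) (hb : 0 ≤ b) :
    |Real.exp (-a) - Real.exp (-b)| ≤ |a - b| := by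
  have key : ∀ a b : ℝ, 0 ≤ a → Real.exp (-a) - Real.exp (-b) ≤ |a - b| := by
    intro a b ha
    have e1 : Real.exp (-b) = Real.exp (-a) * Real.exp (a - b) := by
      rw [← Real.exp_add]; ring_nf
    have e2 := Real.add_one_le_exp (a - b)
    have e3 : Real.exp (-a) ≤ 1 := Real.exp_le_one_iff.2 (by linarith)
    have e4 := Real.exp_pos (-a)
    have e5 := neg_abs_le (a - b)
    have e6 := abs_nonneg (a - b)
    rw [e1]; nlinarith only [e2, e3, e4, e5, e6]
  have e1 := key a b ha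
  have e2 := key b a hb
  rw [abs_sub_comm] at e2
  rw [abs_le]; constructor <;> linarith

section Disc

variable {lam δ : ℝ} {t : ℕ → ℝ} (hl0 : 0 < lam) (hl1 : lam < 1) (hδ : δ ≤ 1) (ht0 : t 0 = 0)
  (ht : ∀ n, 0 < dur t n ∧ dur t n ≤ δ)

include hl0 hl1 hδ ht0 ht

theorem disc_facts (n : ℕ) : 0 ≤ disc lam t n ∧ disc lam t n ≤ Real.exp (-(lam * t n)) ∧
    Real.exp (-(lam * t n)) ≤ disc lam t n + δ * t n := by
  induction n with
  | zero => simp [disc, ht0]
  | succ n ih =>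
    obtain ⟨i1, i2, i3⟩ := ih
    obtain ⟨h0, h1⟩ := ht n
    have tn : 0 ≤ t n := ht0 ▸ le_of_dur (fun n => (ht n).1.le) (Nat.zero_le n)
    have e0 : disc lam t (n + 1) = disc lam t n * (1 - lam * dur t n) := Finset.prod_range_succ _ _
    have e1 : t (n + 1) = t n + dur t n := by simp [dur]
    have e2 : Real.exp (-(lam * t (n + 1))) =
        Real.exp (-(lam * t n)) * Real.exp (-(lam * dur t n)) := by
      rw [← Real.exp_add, e1]; ring_nf
    have x0 : 0 < lam * dur t n := mul_pos hl0 h0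
    have x1 : lam * dur t n ≤ dur t n := mul_le_of_le_one_left h0.le hl1.le
    have e3 : 1 - lam * dur t n ≤ Real.exp (-(lam * dur t n)) := Real.one_sub_le_exp_neg _
    have e4 : Real.exp (-(lam * dur t n)) ≤ 1 - lam * dur t n + δ * dur t n := by
      have a1 := Real.add_one_le_exp (lam * dur t n)
      have a2 : lam * dur t n * (lam * dur t n) ≤ δ * dur t n :=
        mul_le_mul (x1.trans h1) x1 x0.le (h0.le.trans h1)
      rw [Real.exp_neg, inv_le_comm₀ (Real.exp_pos _) (by nlinarith only [a2])]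
      refine le_trans ?_ a1
      rw [inv_le_iff_one_le_mul₀ (by nlinarith only [a2])]
      linarith only [mul_nonneg (mul_nonneg (h0.le.trans h1) h0.le) x0.le, a2]
    have e5 : Real.exp (-(lam * t n)) ≤ 1 :=
      Real.exp_le_one_iff.2 (by have := mul_nonneg hl0.le tn; linarith only [this])
    have e6 := Real.exp_pos (-(lam * t n))
    have y0 : 0 ≤ 1 - lam * dur t n := by linarith only [hδ, h1, x1]
    have y1 : 0 ≤ δ * dur t n := mul_nonneg (h0.le.trans h1) h0.le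
    have y2 : 0 ≤ δ * t n := mul_nonneg (h0.le.trans h1) tn
    rw [e0, e2]
    refine ⟨mul_nonneg i1 y0, mul_le_mul i2 e3 y0 e6.le, ?_⟩
    have a1 := mul_le_mul_of_nonneg_left e4 e6.le
    have a2 := mul_le_mul_of_nonneg_right i3 y0
    have a3 := mul_le_mul_of_nonneg_right e5 y1
    have a4 := mul_nonneg y2 x0.le
    rw [e1]; linarith only [a1, a2, a3, a4]

theorem disc_le_one (n : ℕ) : disc lam t n ≤ 1 := by
  have tn : 0 ≤ t n := ht0 ▸ le_of_dur (fun n => (ht n).1.le) (Nat.zero_le n)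
  exact (disc_facts hl0 hl1 hδ ht0 ht n).2.1.trans
    (Real.exp_le_one_iff.2 (by have := mul_nonneg hl0.le tn; linarith))

theorem w_nonneg (n : ℕ) : 0 ≤ lam * disc lam t n * dur t n :=
  mul_nonneg (mul_nonneg hl0.le (disc_facts hl0 hl1 hδ ht0 ht n).1) (ht n).1.le

theorem disc_tail (N M : ℕ) :
    ∑ k ∈ range M, lam * disc lam t (N + k) * dur t (N + k) ≤ disc lam t N := by
  have : ∑ k ∈ range M, lam * disc lam t (N + k) * dur t (N + k) =
      disc lam t N - disc lam t (N + M) := by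
    induction M with
    | zero => simp
    | succ M ih =>
      have e0 : disc lam t (N + M + 1) = disc lam t (N + M) * (1 - lam * dur t (N + M)) :=
        Finset.prod_range_succ _ _
      rw [Finset.sum_range_succ, ih, ← add_assoc, e0]; ring
  linarith [(disc_facts hl0 hl1 hδ ht0 ht (N + M)).1]

theorem disc_tail_abs (N M : ℕ) :
    ∑ k ∈ range M, |lam * disc lam t (N + k) * dur t (N + k)| ≤ disc lam t N := by
  rw [Finset.sum_congr rfl fun k _ => abs_of_nonneg (w_nonneg hl0 hl1 hδ ht0 ht (N + k))]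
  exact disc_tail hl0 hl1 hδ ht0 ht N M

theorem abs_rate (n : ℕ) : |lam * disc lam t n| ≤ 1 := by
  have e1 := (disc_facts hl0 hl1 hδ ht0 ht n).1
  have e2 := disc_le_one hl0 hl1 hδ ht0 ht n
  rw [abs_of_nonneg (mul_nonneg hl0.le e1)]
  nlinarith only [hl0, hl1, e2]

omit hl0 hl1 hδ in
theorem first_hit {T : ℝ} (hT : 0 < T) {N : ℕ} (hN : T ≤ t N) :
    ∃ N0 ≤ N, T ≤ t N0 ∧ t N0 ≤ T + δ := by
  classical
  have ex : ∃ n, T ≤ t n := ⟨N, hN⟩
  refine ⟨Nat.find ex, Nat.find_min' ex hN, Nat.find_spec ex, ?_⟩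
  obtain h | ⟨k, h⟩ : Nat.find ex = 0 ∨ ∃ k, Nat.find ex = k + 1 := by
    cases Nat.find ex with
    | zero => exact Or.inl rfl
    | succ k => exact Or.inr ⟨k, rfl⟩
  · have := Nat.find_spec ex
    rw [h, ht0] at this
    linarith only [hT, this]
  · have e1 := Nat.find_min ex (show k < Nat.find ex by omega)
    have e2 := (ht k).2
    rw [h]
    simp only [dur] at e2
    linarith only [e1, e2]

end Disc

variable {A Ω I J : Type} [Fintype A] [Fintype Ω] [DecidableEq Ω] [Fintype I] [Fintype J]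
  [Nonempty I] [Nonempty J] (G : Game A Ω I J)

/-- Unnormalised value of the finite-horizon game along a finite partition. -/
noncomputable def FH (π : (ℕ → ℝ) × ℕ) (μ : Ω → ℝ) : ℝ :=
  U G (dur π.1) (fun n => 1 * dur π.1 n) 0 π.2 0 μ

/-- Value of the truncated discounted game along a finite partition. -/
noncomputable def FD (lam : ℝ) (π : (ℕ → ℝ) × ℕ) (μ : Ω → ℝ) : ℝ :=
  U G (dur π.1) (fun n => lam * disc lam π.1 n * dur π.1 n) 0 π.2 0 μ

theorem U_trunc {R : ℝ} (hR0 : 0 ≤ R) (hR : ∀ i j ω, |G.g i j ω| ≤ R) {h : ℕ → ℝ}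
    (h0 : ∀ n, 0 ≤ h n) (h1 : ∀ n, h n ≤ 1) (w : ℕ → ℝ) {N0 N : ℕ} (hN : N0 ≤ N) {θ : ℝ}
    (hθ : ∀ M, ∑ k ∈ range M, |w (N0 + k)| ≤ θ) (p : stdSimplex ℝ Ω) :
    |U G h w 0 N 0 p.1 - U G h w 0 N0 0 p.1| ≤ R * θ := by
  obtain ⟨r, rfl⟩ := Nat.exists_eq_add_of_le hN
  have hθ0 : 0 ≤ θ := by simpa only [range_zero, sum_empty] using hθ 0
  have b : ∀ μ, |U G h w 0 r (0 + N0) μ| ≤ R * θ * n1 μ := fun μ =>
    (abs_U_le G hR0 hR h0 h1 w r _ μ).trans (mul_le_mul_of_nonneg_right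
      (mul_le_mul_of_nonneg_left (by simpa using hθ r) hR0) (n1_nonneg μ))
  have e1 := U_pert G hR hR0 (mul_nonneg hR0 hθ0) h0 h1 w w (φ := U G h w 0 r (0 + N0)) (ψ := 0)
    (fun μ _ => by simpa only [zero_add, Pi.zero_apply] using (abs_le.1 (b μ)).2) N0 0 p.1 p.2.1
  have e2 := U_pert G hR hR0 (mul_nonneg hR0 hθ0) h0 h1 w w (ψ := U G h w 0 r (0 + N0)) (φ := 0)
    (fun μ _ => by have := (abs_le.1 (b μ)).1; simp only [Pi.zero_apply]; linarith only [this]) N0 0 p.1 p.2.1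
  simp only [sub_self, abs_zero, Finset.sum_const_zero, mul_zero, add_zero, n1_simplex,
    mul_one] at e1 e2
  rw [U_comp, abs_le]; constructor <;> linarith only [e2, e1]

theorem exists_W {R : ℝ} (hR0 : 0 ≤ R) (hR : ∀ i j ω, |G.g i j ω| ≤ R) {T : ℝ} (hT : 0 < T) :
    ∃ v : stdSimplex ℝ Ω → ℝ, ∀ ε > 0, ∃ δ > 0, ∀ π, FineH T δ π → ∀ p : stdSimplex ℝ Ω,
      |FH G π p.1 - T * v p| ≤ ε := by
  obtain ⟨v, hv⟩ := exists_ulim (FineH T) (fun _ _ _ h H => H.mono h)
    (fun δ hδ => (exH hT hδ).imp fun _ h => h.1) (fun π (p : stdSimplex ℝ Ω) => FH G π p.1) (by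
      intro η hη
      obtain ⟨ε, hε, δ, hδ, hδ1, H⟩ := core G hR0 hR (T := T + 1) (by linarith) hη
      refine ⟨min δ (ε / 2), by positivity, fun π π' h h' p => ?_⟩
      have a1 := abs_le.1 (h.2.2.trans (min_le_right _ _))
      have a2 := abs_le.1 (h'.2.2.trans (min_le_right _ _))
      have a3 := abs_le.1 (h.2.2.trans (min_le_left _ _))
      have a4 := abs_le.1 (h'.2.2.trans (min_le_left _ _))
      exact H π.1 π'.1 (fun _ => 1) (fun _ => 1) π.2 π'.2 h.1 h'.1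
        (h.mono (min_le_left _ _)).2.1 (h'.mono (min_le_left _ _)).2.1 (by linarith only [hδ1, a3])
        (by linarith only [hδ1, a4]) (abs_le.2 ⟨by linarith, by linarith⟩) (by simp) (by simp)
        (fun _ _ _ _ => by simp only [sub_self, abs_zero]; positivity) p.1 (n1_simplex p).le)
  refine ⟨fun p => v p / T, fun ε hε => ?_⟩
  simpa only [gt_iff_lt, mul_div_cancel₀ _ hT.ne', Subtype.forall, Prod.forall] using hv ε hε

theorem exists_V {R : ℝ} (hR0 : 0 ≤ R) (hR : ∀ i j ω, |G.g i j ω| ≤ R) {lam : ℝ} (hl0 : 0 < lam)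
    (hl1 : lam < 1) : ∃ v : stdSimplex ℝ Ω → ℝ, ∀ ε > 0, ∃ δ > 0, ∀ π, FineD δ π →
      ∀ p : stdSimplex ℝ Ω, |FD G lam π p.1 - v p| ≤ ε := by
  refine exists_ulim FineD (fun _ _ _ h H => H.mono h) (fun δ hδ => exD hδ)
    (fun π (p : stdSimplex ℝ Ω) => FD G lam π p.1) fun η hη => ?_
  obtain ⟨T, hT, hTe⟩ : ∃ T > 0, R * Real.exp (-(lam * T)) ≤ η / 3 := by
    refine ⟨(3 * R + 1) / (η * lam), by positivity, ?_⟩
    have e : lam * ((3 * R + 1) / (η * lam)) = (3 * R + 1) / η := by field_simp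
    have e2 := Real.add_one_le_exp ((3 * R + 1) / η)
    have e3 : (3 * R + 1) / η * η = 3 * R + 1 := by field_simp
    rw [e, Real.exp_neg, ← div_eq_mul_inv, div_le_iff₀ (Real.exp_pos _)]
    nlinarith only [hη, e2, e3]
  obtain ⟨ε, hε, δ, hδ, hδ1, H⟩ := core G hR0 hR (T := T + 1) (by linarith only [hl0, hl1, hT])
    (η := η / 3) (by positivity)
  set δ' := min (min δ (1 / T)) (ε / (2 * (T + 1))) with hδ'
  have d0 : 0 < δ' := by positivity
  have d1 : δ' ≤ δ := (min_le_left _ _).trans (min_le_left _ _)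
  have d2 : T ≤ 1 / δ' := by
    rw [le_one_div hT d0]; exact (min_le_left _ _).trans (min_le_right _ _)
  have d3 : δ' * (2 * (T + 1)) ≤ ε := by
    rw [← le_div_iff₀ (by positivity)]; exact min_le_right _ _
  have d4 : δ' ≤ 1 := d1.trans hδ1
  have tr : ∀ π, FineD δ' π → ∃ N0, T ≤ π.1 N0 ∧ π.1 N0 ≤ T + δ' ∧ ∀ p : stdSimplex ℝ Ω,
      |FD G lam π p.1 - FD G lam (π.1, N0) p.1| ≤ η / 3 := by
    intro π h
    obtain ⟨N0, b1, b2, b3⟩ := first_hit h.1 h.2.1 hT (d2.trans h.2.2)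
    refine ⟨N0, b2, b3, fun p => (U_trunc G hR0 hR (fun n => (h.2.1 n).1.le)
      (fun n => (h.2.1 n).2.trans d4) _ b1 (disc_tail_abs hl0 hl1 d4 h.1 h.2.1 N0) p).trans
      (le_trans (mul_le_mul_of_nonneg_left ((disc_facts hl0 hl1 d4 h.1 h.2.1 N0).2.1.trans ?_)
        hR0) hTe)⟩
    gcongr
  refine ⟨δ', d0, fun π π' h h' p => ?_⟩
  obtain ⟨N, a1, a2, a3⟩ := tr π h
  obtain ⟨M, b1, b2, b3⟩ := tr π' h'
  have m1 := le_of_dur fun n => (h.2.1 n).1.le
  have m2 := le_of_dur fun n => (h'.2.1 n).1.le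
  have e := H π.1 π'.1 (fun n => lam * disc lam π.1 n) (fun n => lam * disc lam π'.1 n) N M
    h.1 h'.1 (h.mono d1).2.1 (h'.mono d1).2.1 (by linarith only [hδ1, d1, a2]) (by linarith only [hδ1, d1, b2])
    (abs_le.2 ⟨by nlinarith only [hT, d0, d3, a1, b2], by nlinarith only [hT, d0, d3, a2, b1]⟩) (abs_rate hl0 hl1 d4 h.1 h.2.1)
    (abs_rate hl0 hl1 d4 h'.1 h'.2.1) (fun n hn m hm => by
      obtain ⟨-, c1, c2⟩ := disc_facts hl0 hl1 d4 h.1 h.2.1 n
      obtain ⟨-, c3, c4⟩ := disc_facts hl0 hl1 d4 h'.1 h'.2.1 m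
      have t0 : 0 ≤ π.1 n := h.1 ▸ m1 (Nat.zero_le n)
      have s0 : 0 ≤ π'.1 m := h'.1 ▸ m2 (Nat.zero_le m)
      have c5 := abs_exp_neg_sub (mul_nonneg hl0.le t0) (mul_nonneg hl0.le s0)
      rw [← mul_sub, abs_mul, abs_of_pos hl0] at c5
      have c6 := abs_le.1 (c5.trans (mul_le_of_le_one_left (abs_nonneg _) hl1.le))
      have c7 : δ' * π.1 n ≤ δ' * (T + 1) :=
        mul_le_mul_of_nonneg_left (by linarith only [m1 hn, hδ1, d1, a2]) d0.le
      have c8 : δ' * π'.1 m ≤ δ' * (T + 1) :=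
        mul_le_mul_of_nonneg_left (by linarith only [m2 hm, hδ1, d1, b2]) d0.le
      have c9 : |disc lam π.1 n - disc lam π'.1 m| ≤ |π.1 n - π'.1 m| + ε :=
        abs_le.2 ⟨by linarith only [hε, d3, c2, c3, c6, c7], by linarith only [hε, d3, c1, c4, c6, c8]⟩
      rw [← mul_sub, abs_mul, abs_of_pos hl0]
      exact (mul_le_of_le_one_left (abs_nonneg _) hl1.le).trans c9) p.1 (n1_simplex p).le
  have e1 := abs_le.1 (a3 p)
  have e2 := abs_le.1 (b3 p)
  simp only [FD] at e1 e2 ⊢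
  linarith only [e, e1, e2]

theorem isHorLimit {R : ℝ} (hR0 : 0 ≤ R) (hR : ∀ i j ω, |G.g i j ω| ≤ R) {T : ℝ} (hT : 0 < T)
    {v : stdSimplex ℝ Ω → ℝ} (hv : ∀ ε > 0, ∃ δ > 0, ∀ π, FineH T δ π → ∀ p : stdSimplex ℝ Ω,
      |FH G π p.1 - T * v p| ≤ ε) (p : stdSimplex ℝ Ω) : G.IsHorLimit p T (v p) := by
  intro ε hε
  obtain ⟨δ, hδ, H⟩ := hv (ε * T / 2) (by positivity)
  refine ⟨min δ 1, by positivity, fun t ht0 hm hlim hd => ?_⟩
  have h0 : ∀ n, 0 < dur t n := fun n => sub_pos.2 (hm (Nat.lt_succ_self n))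
  have hle : ∀ n, t n ≤ T := fun n => hm.monotone.ge_of_tendsto hlim n
  have tail : ∀ N M, ∑ k ∈ range M, 1 / T * dur t (N + k) ≤ 1 / T * (T - t N) := by
    intro N M
    rw [← Finset.mul_sum, sum_dur]
    gcongr; exact hle _
  have near : ∀ θ > 0, ∃ N, T - t N ≤ θ := by
    intro θ hθ
    obtain ⟨N, hN⟩ := (hlim.eventually (lt_mem_nhds (sub_lt_self T hθ))).exists
    exact ⟨N, by linarith⟩
  obtain ⟨u, hu, hu'⟩ := exists_value G hR0 hR (fun n => (h0 n).le)
    (fun n => (hd n).trans (min_le_right _ _)) (w := fun n => 1 / T * dur t n)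
    (fun n => by have := h0 n; positivity) p fun θ hθ => by
      obtain ⟨N, hN⟩ := near (θ * T) (by positivity)
      refine ⟨N, fun M => (tail N M).trans ?_⟩
      rw [one_div, inv_mul_le_iff₀ hT]; linarith
  refine ⟨u, hu, ?_⟩
  obtain ⟨N, hN⟩ := near (min δ (ε * T / 2 / (R + 1))) (by positivity)
  have e1 := hu' N _ (tail N)
  have e2 := H (t, N) ⟨ht0, fun n => ⟨h0 n, (hd n).trans (min_le_left _ _)⟩, by
    rw [abs_sub_comm, abs_of_nonneg (sub_nonneg.2 (hle N))]; exact hN.trans (min_le_left _ _)⟩ p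
  have e3 := U_scale G (h := dur t) (h' := dur t) (w := fun n => 1 / T * dur t n)
    (w' := fun n => 1 * dur t n) zero_le_one (d := 1 / T) (by positivity) N 0 0 (fun _ => rfl)
    (fun _ => by simp) p.1
  rw [one_smul, one_mul] at e3
  have e4 : (T - t N) * (R + 1) ≤ ε * T / 2 := by
    rw [← le_div_iff₀ (by positivity)]; exact hN.trans (min_le_right _ _)
  have e5 : R * (1 / T * (T - t N)) ≤ ε / 2 := by
    have := hle N
    rw [mul_left_comm, one_div, inv_mul_le_iff₀ hT]; linarith only [e4, this]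
  have e6 : |1 / T * FH G (t, N) p.1 - v p| ≤ ε / 2 := by
    have : 1 / T * FH G (t, N) p.1 - v p = 1 / T * (FH G (t, N) p.1 - T * v p) := by field_simp
    rw [this, abs_mul, abs_of_pos (by positivity), one_div, inv_mul_le_iff₀ hT]; linarith only [e2]
  rw [e3] at e1
  have e7 := abs_le.1 e6
  have e8 := abs_le.1 e1
  simp only [FH] at e7
  rw [abs_le]; constructor <;> linarith only [e5, e7, e8]

theorem isDiscLimit {R : ℝ} (hR0 : 0 ≤ R) (hR : ∀ i j ω, |G.g i j ω| ≤ R) {lam : ℝ}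
    (hl0 : 0 < lam) (hl1 : lam < 1) {v : stdSimplex ℝ Ω → ℝ}
    (hv : ∀ ε > 0, ∃ δ > 0, ∀ π, FineD δ π → ∀ p : stdSimplex ℝ Ω, |FD G lam π p.1 - v p| ≤ ε)
    (p : stdSimplex ℝ Ω) : G.IsDiscLimit p lam (v p) := by
  intro ε hε
  obtain ⟨δ, hδ, H⟩ := hv (ε / 2) (by positivity)
  refine ⟨min δ 1, by positivity, fun t ht0 hm hlim hd => ?_⟩
  have ht : ∀ n, 0 < dur t n ∧ dur t n ≤ min δ 1 := fun n =>
    ⟨sub_pos.2 (hm (Nat.lt_succ_self n)), hd n⟩
  have d1 : min δ 1 ≤ 1 := min_le_right _ _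
  have small : ∀ θ > 0, ∀ᶠ N in atTop, disc lam t N ≤ θ := by
    intro θ hθ
    have := Real.tendsto_exp_neg_atTop_nhds_zero.comp (hlim.const_mul_atTop hl0)
    filter_upwards [this.eventually (gt_mem_nhds hθ)] with N hN
    exact (disc_facts hl0 hl1 d1 ht0 ht N).2.1.trans hN.le
  obtain ⟨u, hu, hu'⟩ := exists_value G hR0 hR (fun n => (ht n).1.le)
    (fun n => (hd n).trans d1) (w_nonneg hl0 hl1 d1 ht0 ht) p fun θ hθ => by
      obtain ⟨N, hN⟩ := (small θ hθ).exists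
      exact ⟨N, fun M => (disc_tail hl0 hl1 d1 ht0 ht N M).trans hN⟩
  refine ⟨u, hu, ?_⟩
  obtain ⟨N, hN, hN'⟩ := ((small (ε / 2 / (R + 1)) (by positivity)).and
    (hlim.eventually_ge_atTop (1 / δ))).exists
  have e1 := hu' N _ fun M => (disc_tail hl0 hl1 d1 ht0 ht N M).trans hN
  have e2 := H (t, N) ⟨ht0, fun n => ⟨(ht n).1, (hd n).trans (min_le_left _ _)⟩, hN'⟩ p
  have e3 : R * (ε / 2 / (R + 1)) ≤ ε / 2 := by
    rw [← mul_div_assoc, div_le_iff₀ (by positivity)]; linarith only [hε]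
  have e7 := abs_le.1 e2
  have e8 := abs_le.1 e1
  simp only [FD] at e7
  rw [abs_le]; constructor <;> linarith only [e3, e7, e8]

end Pool.Agent.MP_3fd3f5_an.H78

end
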