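import Pool.Agent.MP_3fd3f5_an.Mg.H78_Lim

namespace Pool.Agent.MP_3fd3f5_an.H78

open Finset Matrix Filter Topology

theorem unif_of_lip {X ι : Type} [PseudoMetricSpace X] [CompactSpace X] {l : Filter ι} [l.NeBot]
    {F : ι → X → ℝ} {v : X → ℝ} {L : ℝ} (hL : 0 ≤ L)
    (hF : ∀ᶠ i in l, ∀ x y, F i x ≤ F i y + L * dist x y)
    (hv : ∀ x, Tendsto (fun i => F i x) l (𝓝 (v x))) : TendstoUniformly F v l := by
  have hvL : ∀ x y, v x ≤ v y + L * dist x y := fun x y =>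
    le_of_tendsto_of_tendsto (hv x) ((hv y).add_const _) (hF.mono fun i hi => hi x y)
  rw [Metric.tendstoUniformly_iff]
  intro ε hε
  have hr : 0 < ε / (3 * (L + 1)) := by positivity
  obtain ⟨s, -, hs, hc⟩ := finite_cover_balls_of_compact (isCompact_univ (X := X)) hr
  have e : ∀ᶠ i in l, ∀ y ∈ s, dist (F i y) (v y) < ε / 3 :=
    (eventually_all_finite hs).2 fun y _ => Metric.tendsto_nhds.1 (hv y) _ (by positivity)
  filter_upwards [e, hF] with i h1 h2 x
  obtain ⟨y, hy, hxy⟩ := Set.mem_iUnion₂.1 (hc (Set.mem_univ x))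
  have a1 := h1 y hy
  rw [Metric.mem_ball, lt_div_iff₀ (by positivity)] at hxy
  have a2 := h2 x y
  have a3 := h2 y x
  have a4 := hvL x y
  have a5 := hvL y x
  have a6 : 0 ≤ dist x y := dist_nonneg
  rw [dist_comm y x] at a3 a5
  rw [Real.dist_eq, abs_lt] at a1 ⊢
  constructor <;> linarith only [hxy, a1, a2, a5, a6, a3, a4]

/-- The abstract Tauberian argument. -/
theorem tauber {X : Type} {V W : ℝ → X → ℝ} {R : ℝ} (hR : 0 ≤ R)
    (hV : ∀ lam, 0 < lam → lam < 1 → ∀ x, |V lam x| ≤ R) (hW : ∀ T > 0, ∀ x, |W T x| ≤ R)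
    (key : ∀ T > 1, ∀ η c, 0 < η → η < 1 → (∀ x, |W ((1 - η) * T) x - V (1 / T) x| ≤ c) →
      ∀ x, |W T x - V (1 / T) x| ≤ (1 - η) * c + 2 * R * η ^ 2) (v : X → ℝ) :
    TendstoUniformly V v (𝓝[>] 0) ↔ TendstoUniformly W v atTop := by
  have heta : ∀ ε > 0, ∃ η : ℝ, 0 < η ∧ η < 1 ∧ 2 * R * η ^ 2 ≤ ε * η := by
    intro ε hε
    refine ⟨min (1 / 2) (ε / (2 * R + 1)), by positivity,
      (min_le_left _ _).trans_lt (by norm_num), ?_⟩
    have a0 : 0 < min (1 / 2) (ε / (2 * R + 1)) := by positivity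
    have a1 : min (1 / 2) (ε / (2 * R + 1)) * (2 * R + 1) ≤ ε := by
      rw [← le_div_iff₀ (by positivity)]; exact min_le_right _ _
    nlinarith only [a0, a1]
  have hpow : ∀ η : ℝ, 0 < η → η < 1 → ∀ B : ℝ, ∀ ε > 0, ∃ m : ℕ, (1 - η) ^ m * B ≤ ε := by
    intro η h0 h1 B ε hε
    have := (tendsto_pow_atTop_nhds_zero_of_lt_one (r := 1 - η) (by linarith)
      (by linarith)).mul_const B
    rw [zero_mul] at this
    obtain ⟨m, hm⟩ := (this.eventually (gt_mem_nhds hε)).exists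
    exact ⟨m, hm.le⟩
  simp only [Metric.tendstoUniformly_iff, Real.dist_eq]
  constructor
  · intro h ε' hε'
    obtain ⟨ε, hε, rfl⟩ : ∃ ε > 0, ε' = 5 * ε := ⟨ε' / 5, by positivity, by ring⟩
    obtain ⟨η, h0, h1, h2⟩ := heta ε hε
    have t1 : Tendsto (fun T : ℝ => 1 / T) atTop (𝓝[>] 0) := by
      simpa only [one_div] using tendsto_inv_atTop_nhdsGT_zero
    obtain ⟨T0, hT0⟩ := eventually_atTop.1
      ((t1.eventually (h (ε * η) (by positivity))).and (eventually_gt_atTop 1))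
    have hT1 := (hT0 T0 le_rfl).2
    have lt1 : ∀ T > (1 : ℝ), 0 < 1 / T ∧ 1 / T < 1 := fun T hT =>
      ⟨by positivity, by rw [div_lt_one (by linarith)]; exact hT⟩
    have ind : ∀ m : ℕ, ∀ T, T0 ≤ (1 - η) ^ m * T → ∀ x,
        |W T x - v x| ≤ (1 - η) ^ m * (2 * R) + 3 * ε := by
      intro m
      induction m with
      | zero =>
        intro T hT x
        rw [pow_zero, one_mul] at hT
        obtain ⟨a1, a2⟩ := hT0 T hT
        have b1 := abs_lt.1 (a1 x)
        have b2 := abs_le.1 (hV _ (lt1 T a2).1 (lt1 T a2).2 x)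
        have b3 := abs_le.1 (hW T (by linarith only [h0, h1, hT1, hT]) x)
        have b4 : ε * η ≤ ε := mul_le_of_le_one_right hε.le h1.le
        rw [pow_zero, one_mul, abs_le]; constructor <;> linarith
      | succ m ih =>
        intro T hT x
        have p0 : 0 < (1 - η) ^ (m + 1) := pow_pos (by linarith) _
        have p1 : (1 - η) ^ (m + 1) ≤ 1 := pow_le_one₀ (by linarith) (by linarith)
        have hTpos : 0 < T := (mul_pos_iff_of_pos_left p0).1 (by linarith)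
        obtain ⟨a1, a2⟩ := hT0 T (hT.trans (mul_le_of_le_one_left hTpos.le p1))
        have b := key T a2 η ((1 - η) ^ m * (2 * R) + 3 * ε + ε * η) h0 h1 (fun y => by
          have c1 := abs_le.1 (ih ((1 - η) * T) (by rw [← mul_assoc, ← pow_succ]; exact hT) y)
          have c2 := abs_lt.1 (a1 y)
          rw [abs_le]; constructor <;> linarith) x
        have c1 := abs_le.1 b
        have c2 := abs_lt.1 (a1 x)
        have c3 : 0 ≤ ε * η * η := by positivity
        rw [pow_succ, abs_le]; constructor <;> linarith only [h2, c1, c2, c3]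
    obtain ⟨m, hm⟩ := hpow η h0 h1 (2 * R) ε hε
    have p0 : 0 < (1 - η) ^ m := pow_pos (by linarith) _
    filter_upwards [eventually_ge_atTop (T0 / (1 - η) ^ m)] with T hT x
    rw [div_le_iff₀ p0, mul_comm] at hT
    rw [abs_sub_comm]
    linarith [ind m T hT x]
  · intro h ε' hε'
    obtain ⟨ε, hε, rfl⟩ : ∃ ε > 0, ε' = 6 * ε := ⟨ε' / 6, by positivity, by ring⟩
    obtain ⟨η, h0, h1, h2⟩ := heta ε hε
    have t1 : Tendsto (fun l : ℝ => 1 / l) (𝓝[>] 0) atTop := by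
      simpa only [one_div] using tendsto_inv_nhdsGT_zero
    have t2 := t1.const_mul_atTop (show 0 < 1 - η by linarith)
    have h' := h (ε * η) (by positivity)
    filter_upwards [t1.eventually h', t2.eventually h', Ioo_mem_nhdsGT (zero_lt_one' ℝ)]
      with l a1 a2 hl x
    have hT : 1 < 1 / l := by rw [lt_div_iff₀ hl.1]; linarith [hl.2]
    have ind : ∀ m : ℕ, ∀ y, |W ((1 - η) * (1 / l)) y - V (1 / (1 / l)) y| ≤
        (1 - η) ^ m * (2 * R) + 3 * ε := by
      intro m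
      induction m with
      | zero =>
        intro y
        have b2 := abs_le.1 (hV _ hl.1 hl.2 y)
        have b3 := abs_le.1 (hW ((1 - η) * (1 / l)) (mul_pos (by linarith) (by linarith)) y)
        rw [one_div_one_div, pow_zero, one_mul, abs_le]; constructor <;> linarith
      | succ m ih =>
        intro y
        have c1 := abs_le.1 (key _ hT η _ h0 h1 ih y)
        have c2 := abs_lt.1 (a1 y)
        have c3 := abs_lt.1 (a2 y)
        rw [pow_succ, abs_le]; constructor <;> linarith only [h2, c1, c2, c3]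
    obtain ⟨m, hm⟩ := hpow η h0 h1 (2 * R) ε hε
    have c1 := abs_le.1 (ind m x)
    have c3 := abs_lt.1 (a2 x)
    have b4 : ε * η ≤ ε := mul_le_of_le_one_right hε.le h1.le
    rw [one_div_one_div] at c1
    rw [abs_lt]; constructor <;> linarith

variable {A Ω I J : Type} [Fintype A] [Fintype Ω] [DecidableEq Ω] [Fintype I] [Fintype J]
  [Nonempty I] [Nonempty J] (G : Game A Ω I J)

omit [DecidableEq Ω] in
theorem cone_ext {φ ψ : (Ω → ℝ) → ℝ} {c : ℝ} (hφ : ∀ a : ℝ, 0 ≤ a → ∀ μ, φ (a • μ) = a * φ μ)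
    (hψ : ∀ a : ℝ, 0 ≤ a → ∀ μ, ψ (a • μ) = a * ψ μ)
    (h : ∀ p : stdSimplex ℝ Ω, φ p.1 ≤ ψ p.1 + c) (μ : Ω → ℝ) (hμ : ∀ ω, 0 ≤ μ ω) :
    φ μ ≤ ψ μ + c * n1 μ := by
  rcases (n1_nonneg μ).eq_or_lt with h0 | h0
  · have : μ = (0 : ℝ) • μ := by
      funext ω
      have := abs_le_n1 μ ω
      rw [← h0] at this
      simpa using this
    rw [← h0, this, hφ 0 le_rfl, hψ 0 le_rfl]; simp
  · have hp : (n1 μ)⁻¹ • μ ∈ stdSimplex ℝ Ω := by
      refine ⟨fun ω => mul_nonneg (inv_nonneg.2 h0.le) (hμ ω), ?_⟩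
      have : ∑ ω, μ ω = n1 μ := Finset.sum_congr rfl fun ω _ => (abs_of_nonneg (hμ ω)).symm
      simp only [Pi.smul_apply, smul_eq_mul, ← Finset.mul_sum, this]
      exact inv_mul_cancel₀ h0.ne'
    have e := mul_le_mul_of_nonneg_left (h ⟨_, hp⟩) h0.le
    rw [mul_add, ← hφ _ h0.le, ← hψ _ h0.le, smul_inv_smul₀ h0.ne'] at e
    linarith

theorem key_ineq {R : ℝ} (hR0 : 0 ≤ R) (hR : ∀ i j ω, |G.g i j ω| ≤ R) {T η c : ℝ} (hT : 1 < T)
    (h0 : 0 < η) (h1 : η < 1) {v w w' : stdSimplex ℝ Ω → ℝ}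
    (hv : ∀ ε > 0, ∃ δ > 0, ∀ π, FineD δ π → ∀ p : stdSimplex ℝ Ω,
      |FD G (1 / T) π p.1 - v p| ≤ ε)
    (hw : ∀ ε > 0, ∃ δ > 0, ∀ π, FineH T δ π → ∀ p : stdSimplex ℝ Ω,
      |FH G π p.1 - T * w p| ≤ ε)
    (hw' : ∀ ε > 0, ∃ δ > 0, ∀ π, FineH ((1 - η) * T) δ π → ∀ p : stdSimplex ℝ Ω,
      |FH G π p.1 - (1 - η) * T * w' p| ≤ ε)
    (hc : ∀ p, |w' p - v p| ≤ c) (p : stdSimplex ℝ Ω) :
    |w p - v p| ≤ (1 - η) * c + 2 * R * η ^ 2 := by
  refine le_of_forall_pos_le_add fun ε' hε' => ?_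
  obtain ⟨ε, hε, rfl⟩ : ∃ ε > 0, ε' = 4 * ε := ⟨ε' / 4, by positivity, by ring⟩
  obtain ⟨δ1, d1, H1⟩ := hv ε hε
  obtain ⟨δ2, d2, H2⟩ := hw ε hε
  obtain ⟨δ3, d3, H3⟩ := hw' ε hε
  have hT0 : 0 < T := by linarith
  have hc0 : 0 ≤ c := (abs_nonneg _).trans (hc p)
  set lam := 1 / T with hlam
  have l0 : 0 < lam := by positivity
  have l1 : lam < 1 := by rw [hlam, div_lt_one hT0]; exact hT
  have lT : lam * T = 1 := by rw [hlam]; field_simp
  obtain ⟨k, h, hh0, hhδ, hk⟩ := exists_step (T := η * T) (δ := min (min δ1 1) (min δ2 δ3))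
    (by positivity) (by positivity)
  have g1 : h ≤ δ1 := hhδ.trans ((min_le_left _ _).trans (min_le_left _ _))
  have g0 : h ≤ 1 := hhδ.trans ((min_le_left _ _).trans (min_le_right _ _))
  have g2 : h ≤ δ2 := hhδ.trans ((min_le_right _ _).trans (min_le_left _ _))
  have g3 : h ≤ δ3 := hhδ.trans ((min_le_right _ _).trans (min_le_right _ _))
  set t : ℕ → ℝ := fun n => n * h with ht
  have hd : ∀ n, dur t n = h := dur_unif h
  have t0 : t 0 = 0 := by simp [ht]
  have st : ∀ {δ}, h ≤ δ → ∀ n, 0 < dur t n ∧ dur t n ≤ δ := fun g n => by simp [hd, hh0, g]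
  have hd0 : ∀ n, 0 ≤ dur t n := fun n => (st g0 n).1.le
  have hd1 : ∀ n, dur t n ≤ 1 := fun n => (st g0 n).2
  obtain ⟨r, hr⟩ : ∃ r : ℕ, |r * h - (1 - η) * T| ≤ h := by
    have a0 : 0 ≤ (1 - η) * T / h := div_nonneg (mul_nonneg (by linarith only [h1]) hT0.le) hh0.le
    have a1 := Nat.floor_le a0
    have a2 := Nat.lt_floor_add_one ((1 - η) * T / h)
    rw [le_div_iff₀ hh0] at a1
    rw [div_lt_iff₀ hh0] at a2
    exact ⟨⌊(1 - η) * T / h⌋₊, abs_le.2 ⟨by linarith only [a2], by linarith only [hh0, a1]⟩⟩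
  obtain ⟨r', hr'⟩ : ∃ r' : ℕ, 1 / δ1 ≤ r' * h := by
    obtain ⟨r', hr'⟩ := exists_nat_ge (1 / δ1 / h)
    exact ⟨r', by rwa [div_le_iff₀ hh0] at hr'⟩
  have f1 := H3 (t, r) ⟨t0, st g3, hr.trans g3⟩
  have f2 := H2 (t, k + r) ⟨t0, st g2, le_trans (le_of_eq (by
    simp only [ht]; push_cast; congr 1; linarith only [hk])) (hr.trans g2)⟩ p
  have f3 := H1 (t, r') ⟨t0, st g1, hr'⟩
  have f4 := H1 (t, k + r') ⟨t0, st g1, hr'.trans (by
    simp only [ht]; push_cast; linarith only [mul_pos h0 hT0, hk])⟩ p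
  have x0 : 0 ≤ 1 - lam * h := by nlinarith only [hT, lT, g0]
  have dj : ∀ n, disc lam t n = (1 - lam * h) ^ n := fun n => by simp [disc, hd]
  have kl : k * (lam * h) = η := by
    calc _ = lam * (k * h) := by ring
      _ = η * (lam * T) := by rw [hk]; ring
      _ = η := by rw [lT, mul_one]
  have bern : ∀ j ≤ k, 1 - η ≤ (1 - lam * h) ^ j := by
    intro j hj
    have a1 := one_add_mul_le_pow (a := -(lam * h)) (by linarith only [h0, h1, x0]) j
    have a2 : (j : ℝ) * (lam * h) ≤ k * (lam * h) := by gcongr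
    rw [← sub_eq_add_neg] at a1
    linarith only [kl, a1, a2]
  have aup : (1 - lam * h) ^ k ≤ 1 - η + η ^ 2 := by
    have a1 := (disc_facts l0 l1 g0 t0 (st le_rfl) k).2.1
    have a2 : lam * t k = η := by rw [← kl, ht]; ring
    have a3 := Real.add_one_le_exp η
    rw [dj, a2] at a1
    refine a1.trans ?_
    rw [Real.exp_neg, inv_le_comm₀ (Real.exp_pos _) (by nlinarith only [h1])]
    refine le_trans ?_ a3
    rw [inv_le_iff_one_le_mul₀ (by nlinarith only [h1])]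
    linarith only [pow_pos h0 3]
  set w1 : ℕ → ℝ := fun n => lam * (1 * dur t n) with hw1
  set w2 : ℕ → ℝ := fun n => lam * disc lam t n * dur t n with hw2
  have s1 : ∀ N n μ, U G (dur t) w1 0 N n μ = lam * FH G (t, N) μ := fun N n μ => by
    have := U_scale G (h := dur t) (h' := dur t) (w := w1) (w' := fun n => 1 * dur t n)
      zero_le_one l0.le N n 0 (fun _ => by simp [hd]) (fun _ => by simp [hw1, hd]) μ
    rwa [one_smul, one_mul] at this
  have s2 : ∀ μ, U G (dur t) w2 0 r' (0 + k) μ = (1 - lam * h) ^ k * FD G lam (t, r') μ :=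
    fun μ => by
    have := U_scale G (h := dur t) (h' := dur t) (w := w2) (w' := w2) zero_le_one
      (pow_nonneg x0 k) r' (0 + k) 0 (fun _ => by simp [hd])
      (fun _ => by simp only [hw2, dj, hd, zero_add, pow_add]; ring) μ
    rwa [one_smul, one_mul] at this
  have cl : ∀ q : stdSimplex ℝ Ω, |U G (dur t) w1 0 r (0 + k) q.1 -
      U G (dur t) w2 0 r' (0 + k) q.1| ≤ (1 - η) * c + R * η ^ 2 + 2 * ε := by
    intro q
    have a1 := f1 q
    have a2 := f3 q
    have a3 := hc q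
    have a4 : |FD G lam (t, r') q.1| ≤ R := by
      have b1 := abs_U_le G hR0 hR hd0 hd1 w2 r' 0 q.1
      have b2 := (disc_tail_abs l0 l1 g0 t0 (st le_rfl) 0 r').trans
        (disc_le_one l0 l1 g0 t0 (st le_rfl) 0)
      rw [n1_simplex, mul_one] at b1
      exact b1.trans (mul_le_of_le_one_right hR0 b2)
    have a5 : |1 - η - (1 - lam * h) ^ k| ≤ η ^ 2 :=
      abs_le.2 ⟨by linarith only [aup], by nlinarith only [bern k le_rfl]⟩
    have e : lam * FH G (t, r) q.1 - (1 - lam * h) ^ k * FD G lam (t, r') q.1 =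
        lam * (FH G (t, r) q.1 - (1 - η) * T * w' q) + (1 - η) * (w' q - v q) +
        (-(1 - η)) * (FD G lam (t, r') q.1 - v q) +
        (1 - η - (1 - lam * h) ^ k) * FD G lam (t, r') q.1 := by
      linear_combination (-(1 - η) * w' q) * (-lT)
    have b1 : |lam * (FH G (t, r) q.1 - (1 - η) * T * w' q)| ≤ 1 * ε := by
      rw [abs_mul, abs_of_pos l0]; exact mul_le_mul l1.le a1 (abs_nonneg _) zero_le_one
    have b2 : |(1 - η) * (w' q - v q)| ≤ (1 - η) * c := by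
      rw [abs_mul, abs_of_pos (by linarith only [h1])]; exact mul_le_mul_of_nonneg_left a3 (by linarith only [h1])
    have b3 : |(-(1 - η)) * (FD G lam (t, r') q.1 - v q)| ≤ 1 * ε := by
      rw [abs_mul, abs_neg, abs_of_pos (by linarith only [h1])]
      exact mul_le_mul (by linarith only [h0]) a2 (abs_nonneg _) zero_le_one
    have b4 : |(1 - η - (1 - lam * h) ^ k) * FD G lam (t, r') q.1| ≤ η ^ 2 * R := by
      rw [abs_mul]; exact mul_le_mul a5 a4 (abs_nonneg _) (by positivity)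
    rw [s1, s2, e]
    have := abs_le.1 b1; have := abs_le.1 b2; have := abs_le.1 b3; have := abs_le.1 b4
    rw [abs_le]; constructor <;> linarith
  have c0 : 0 ≤ (1 - η) * c + R * η ^ 2 + 2 * ε :=
    add_nonneg (add_nonneg (mul_nonneg (by linarith only [h1]) hc0) (by positivity)) (by positivity)
  have sw : ∑ j ∈ range k, |w1 (0 + j) - w2 (0 + j)| ≤ η ^ 2 := by
    calc _ ≤ ∑ j ∈ range k, lam * h * η := Finset.sum_le_sum fun j hj => by
          have a1 := bern j (Finset.mem_range.1 hj).le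
          have a2 : (1 - lam * h) ^ j ≤ 1 := pow_le_one₀ x0 (by nlinarith only [h0, kl])
          have a3 : w1 (0 + j) - w2 (0 + j) = lam * h * (1 - (1 - lam * h) ^ j) := by
            simp only [hw1, hw2, dj, hd, zero_add]; ring
          rw [a3, abs_of_nonneg (mul_nonneg (by positivity) (by linarith only [a2]))]
          exact mul_le_mul_of_nonneg_left (by linarith only [a1]) (by positivity)
      _ = η ^ 2 := by rw [Finset.sum_const, Finset.card_range, nsmul_eq_mul, ← mul_assoc, kl, sq]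
  have p1 := U_pert G hR hR0 c0 hd0 hd1 w1 w2 (cone_ext (fun a ha => U_smul G _ w1 ha r (0 + k))
    (fun a ha => U_smul G _ w2 ha r' (0 + k)) fun q => by linarith only [(abs_le.1 (cl q)).2])
    k 0 p.1 p.2.1
  have p2 := U_pert G hR hR0 c0 hd0 hd1 w2 w1 (cone_ext (fun a ha => U_smul G _ w2 ha r' (0 + k))
    (fun a ha => U_smul G _ w1 ha r (0 + k)) fun q => by linarith only [(abs_le.1 (cl q)).1])
    k 0 p.1 p.2.1
  rw [← U_comp, ← U_comp, s1, n1_simplex, mul_one] at p1 p2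
  simp only [abs_sub_comm (w2 _)] at p2
  have sw' := mul_le_mul_of_nonneg_left sw hR0
  have f5 : |lam * FH G (t, k + r) p.1 - w p| ≤ 1 * ε := by
    have : lam * FH G (t, k + r) p.1 - w p = lam * (FH G (t, k + r) p.1 - T * w p) := by
      linear_combination (w p) * lT
    rw [this, abs_mul, abs_of_pos l0]; exact mul_le_mul l1.le f2 (abs_nonneg _) zero_le_one
  have := abs_le.1 f5
  have := abs_le.1 f4
  simp only [FD] at this
  rw [abs_le]; constructor <;> linarith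

omit [DecidableEq Ω] in
theorem n1_le_dist (p q : stdSimplex ℝ Ω) : n1 (p.1 - q.1) ≤ Fintype.card Ω * dist p q := by
  calc _ ≤ ∑ _ω : Ω, dist p q := Finset.sum_le_sum fun ω _ => by
        rw [Pi.sub_apply, ← Real.dist_eq]; exact dist_le_pi_dist p.1 q.1 ω
    _ = _ := by simp only [sum_const, card_univ, nsmul_eq_mul]

theorem W_facts {R : ℝ} (hR0 : 0 ≤ R) (hR : ∀ i j ω, |G.g i j ω| ≤ R) {T : ℝ} (hT : 0 < T)
    {w : stdSimplex ℝ Ω → ℝ} (hw : ∀ ε > 0, ∃ δ > 0, ∀ π, FineH T δ π → ∀ p : stdSimplex ℝ Ω,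
      |FH G π p.1 - T * w p| ≤ ε) (p : stdSimplex ℝ Ω) :
    |w p| ≤ R ∧ ∀ q, w p ≤ w q + R * Fintype.card Ω * dist p q := by
  have ex : ∀ ε > 0, |T * w p| ≤ T * R + ε ∧
      ∀ q, T * w p ≤ T * (w q + R * Fintype.card Ω * dist p q) + ε := by
    intro ε hε
    obtain ⟨δ, hδ, H⟩ := hw (ε / 2) (by positivity)
    obtain ⟨π, hπ, he⟩ := exH hT (show 0 < min δ 1 by positivity)
    have h0 : ∀ n, 0 ≤ dur π.1 n := fun n => (hπ.2.1 n).1.le
    have h1 : ∀ n, dur π.1 n ≤ 1 := fun n => (hπ.2.1 n).2.trans (min_le_right _ _)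
    have a0 := sum_abs_w (ρ := fun _ => 1) h0 (by simp) 0 π.2
    rw [zero_add, he, hπ.1, sub_zero] at a0
    have a1 := mul_le_mul_of_nonneg_left a0 hR0
    have a2 := abs_U_le G hR0 hR h0 h1 (fun n => 1 * dur π.1 n) π.2 0 p.1
    rw [n1_simplex, mul_one] at a2
    have a3 := abs_le.1 (H π (hπ.mono (min_le_left _ _)) p)
    have a4 := abs_le.1 a2
    simp only [FH] at a3
    refine ⟨abs_le.2 ⟨by linarith, by linarith⟩, fun q => ?_⟩
    have b1 := U_lip G hR0 hR h0 h1 (fun n => 1 * dur π.1 n) π.2 0 p.1 q.1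
    have b2 := mul_le_mul a1 (n1_le_dist p q) (n1_nonneg _) (by positivity)
    have b3 := abs_le.1 (H π (hπ.mono (min_le_left _ _)) q)
    simp only [FH] at b3
    linarith
  constructor
  · have := le_of_forall_pos_le_add fun ε hε => (ex ε hε).1
    rwa [abs_mul, abs_of_pos hT, mul_le_mul_iff_right₀ hT] at this
  · intro q
    have := le_of_forall_pos_le_add fun ε hε => (ex ε hε).2 q
    rwa [mul_le_mul_iff_right₀ hT] at this

theorem V_facts {R : ℝ} (hR0 : 0 ≤ R) (hR : ∀ i j ω, |G.g i j ω| ≤ R) {lam : ℝ} (hl0 : 0 < lam)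
    (hl1 : lam < 1) {v : stdSimplex ℝ Ω → ℝ} (hv : ∀ ε > 0, ∃ δ > 0, ∀ π, FineD δ π →
      ∀ p : stdSimplex ℝ Ω, |FD G lam π p.1 - v p| ≤ ε) (p : stdSimplex ℝ Ω) :
    |v p| ≤ R ∧ ∀ q, v p ≤ v q + R * Fintype.card Ω * dist p q := by
  have ex : ∀ ε > 0, |v p| ≤ R + ε ∧ ∀ q, v p ≤ v q + R * Fintype.card Ω * dist p q + ε := by
    intro ε hε
    obtain ⟨δ, hδ, H⟩ := hv (ε / 2) (by positivity)
    obtain ⟨π, hπ⟩ := exD (show 0 < min δ 1 by positivity)
    have d1 : min δ 1 ≤ 1 := min_le_right _ _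
    have h0 : ∀ n, 0 ≤ dur π.1 n := fun n => (hπ.2.1 n).1.le
    have h1 : ∀ n, dur π.1 n ≤ 1 := fun n => (hπ.2.1 n).2.trans d1
    have a0 := (disc_tail_abs hl0 hl1 d1 hπ.1 hπ.2.1 0 π.2).trans
      (disc_le_one hl0 hl1 d1 hπ.1 hπ.2.1 0)
    have a1 := mul_le_mul_of_nonneg_left a0 hR0
    have a2 := abs_U_le G hR0 hR h0 h1 (fun n => lam * disc lam π.1 n * dur π.1 n) π.2 0 p.1
    rw [n1_simplex, mul_one] at a2
    have a3 := abs_le.1 (H π (hπ.mono (min_le_left _ _)) p)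
    have a4 := abs_le.1 a2
    simp only [FD] at a3
    refine ⟨abs_le.2 ⟨by linarith, by linarith only [a1, a3, a4]⟩, fun q => ?_⟩
    have b1 := U_lip G hR0 hR h0 h1 (fun n => lam * disc lam π.1 n * dur π.1 n) π.2 0 p.1 q.1
    have b2 := mul_le_mul a1 (n1_le_dist p q) (n1_nonneg _) (by positivity)
    have b3 := abs_le.1 (H π (hπ.mono (min_le_left _ _)) q)
    simp only [FD] at b3
    linarith
  exact ⟨le_of_forall_pos_le_add fun ε hε => (ex ε hε).1,
    fun q => le_of_forall_pos_le_add fun ε hε => (ex ε hε).2 q⟩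

theorem main : ∃ V W : ℝ → stdSimplex ℝ Ω → ℝ,
    (∀ lam ∈ Set.Ioo (0 : ℝ) 1, ∀ p, G.IsDiscLimit p lam (V lam p)) ∧
    (∀ T > 0, ∀ p, G.IsHorLimit p T (W T p)) ∧ ∀ v : stdSimplex ℝ Ω → ℝ, List.TFAE
      [TendstoUniformly V v (𝓝[>] 0), TendstoUniformly W v atTop,
        ∀ p, Tendsto (fun lam => V lam p) (𝓝[>] 0) (𝓝 (v p)),
        ∀ p, Tendsto (fun T => W T p) atTop (𝓝 (v p))] := by
  obtain ⟨R, hR0, hR⟩ : ∃ R : ℝ, 0 ≤ R ∧ ∀ i j ω, |G.g i j ω| ≤ R := by
    obtain ⟨R, hR⟩ := (Set.finite_range fun x : I × J × Ω => |G.g x.1 x.2.1 x.2.2|).bddAbove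
    exact ⟨max R 0, le_max_right _ _, fun i j ω =>
      (hR ⟨(i, j, ω), rfl⟩).trans (le_max_left _ _)⟩
  choose! V hV using fun (lam : ℝ) (h0 : 0 < lam) (h1 : lam < 1) => exists_V G hR0 hR h0 h1
  choose! W hW using fun (T : ℝ) (hT : 0 < T) => exists_W G hR0 hR hT
  refine ⟨V, W, fun lam hl p => isDiscLimit G hR0 hR hl.1 hl.2 (hV lam hl.1 hl.2) p,
    fun T hT p => isHorLimit G hR0 hR hT (hW T hT) p, fun v => ?_⟩
  have : CompactSpace (stdSimplex ℝ Ω) := isCompact_iff_compactSpace.1 (isCompact_stdSimplex ℝ Ω)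
  tfae_have 1 ↔ 2 := tauber hR0 (fun l h0 h1 p => (V_facts G hR0 hR h0 h1 (hV l h0 h1) p).1)
    (fun T hT p => (W_facts G hR0 hR hT (hW T hT) p).1) (fun T hT η c h0 h1 hc p =>
      key_ineq G hR0 hR hT h0 h1
        (hV _ (by positivity) (by rw [div_lt_one (by linarith)]; exact hT)) (hW T (by linarith))
        (hW _ (mul_pos (by linarith) (by linarith))) hc p) v
  tfae_have 1 → 3 := fun h p => h.tendsto_at p
  tfae_have 2 → 4 := fun h p => h.tendsto_at p
  tfae_have 3 → 1 := unif_of_lip (L := R * Fintype.card Ω) (by positivity) (by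
    filter_upwards [Ioo_mem_nhdsGT (zero_lt_one' ℝ)] with l hl p
    exact (V_facts G hR0 hR hl.1 hl.2 (hV l hl.1 hl.2) p).2)
  tfae_have 4 → 2 := unif_of_lip (L := R * Fintype.card Ω) (by positivity) (by
    filter_upwards [eventually_gt_atTop 0] with T hT p
    exact (W_facts G hR0 hR hT (hW T hT) p).2)
  tfae_finish

end Pool.Agent.MP_3fd3f5_an.H78
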