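import Pool.Agent.MP_3fd3f5_an.Example

-- part MP_3fd3f5_an.Horizon
section

namespace Pool.Agent.MP_3fd3f5_an.Ex

open Sum

def tn : ℕ → ℕ
  | 0 => 0
  | k + 1 => 10000 * (tn k + 1)

theorem tn_succ (k : ℕ) : p * (tn (k + 1) : ℝ) = tn k + 1 := by
  simp only [tn, p]; push_cast; ring

theorem tn_mono : Monotone tn := monotone_nat_of_le_succ fun k => by simp only [tn]; omega

theorem tn_le {k l : ℕ} (h : k ≤ l) : (tn k : ℝ) ≤ tn l := by exact_mod_cast tn_mono h

theorem ppow_anti {k l : ℕ} (h : k ≤ l) : p ^ l ≤ p ^ k := pow_le_pow_of_le_one p_pos.le p_le h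

/-- The recursive inequalities satisfied by the finite-horizon values of one component. -/
structure Rec (α β : ℝ) (u0 u1 : ℕ → ℕ → ℝ) : Prop where
  a0 : 0 < α
  a1 : α ≤ 1
  b0 : 0 < β
  b1 : β ≤ 1
  z0 : ∀ k, u0 0 k ≤ 0
  z1 : ∀ k, u1 0 k ≤ 0
  s0 : ∀ r k, u0 (r + 1) k ≤
    max ((1 - α * p ^ k) * u1 r 0) (p * u0 r (k + 1) + (1 - p) * u0 r 0)
  s1 : ∀ r k, u1 (r + 1) k ≤
    1 + min (β * p ^ k * r + (1 - β * p ^ k) * u0 r 0) (p * u1 r (k + 1) + (1 - p) * u1 r 0)

theorem Rec.super {α β : ℝ} {u0 u1 : ℕ → ℕ → ℝ} (R : Rec α β u0 u1) (n K : ℕ)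
    (φ a Δ : ℕ → ℝ) (h1 : ∀ r, φ r + a r ≤ φ (r + 1)) (h2 : ∀ r, a r ≤ a (r + 1))
    (h3 : ∀ r, Δ r ≤ Δ (r + 1)) (h4 : ∀ r, 0 ≤ Δ r)
    (h5 : ∀ r ≤ n, ∀ k, K ≤ k → (1 - a r) * (tn K + 1) + β * p ^ k * (r - φ r) ≤ Δ r)
    (h6 : ∀ r ≤ n, ∀ k, Δ r ≤ a r * (tn k + 1) + α * p ^ k * φ r)
    (h7 : 0 ≤ φ 0) (h8 : 0 ≤ a 0) (h9 : a 0 ≤ 1) (h10 : (1 - a 0) * tn K ≤ Δ 0) :
    ∀ r ≤ n, ∀ k, u0 r k ≤ φ r + a r * tn k ∧
      u1 r k ≤ φ r + Δ r - (1 - a r) * tn (min k K) := by
  have pk : ∀ k, 0 ≤ p ^ k := fun k => pow_nonneg p_pos.le k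
  have pk1 : ∀ k, p ^ k ≤ 1 := fun k => pow_le_one₀ p_pos.le p_le
  have p1 : 0 ≤ 1 - p := sub_nonneg.2 p_le
  intro r
  induction r with
  | zero =>
    intro _ k
    constructor
    · have := mul_nonneg h8 (Nat.cast_nonneg (α := ℝ) (tn k))
      linarith [R.z0 k]
    · have := mul_le_mul_of_nonneg_left (tn_le (min_le_right k K)) (sub_nonneg.2 h9)
      linarith [R.z1 k]
  | succ r ih =>
    intro hr k
    have ih := ih (by omega)
    have i00 := (ih 0).1
    have i10 := (ih 0).2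
    simp only [tn, Nat.cast_zero, mul_zero, add_zero, Nat.zero_min, sub_zero] at i00 i10
    have t0 : (0 : ℝ) ≤ tn k := Nat.cast_nonneg _
    have m2 := mul_le_mul_of_nonneg_right (h2 r) t0
    constructor
    · refine (R.s0 r k).trans (max_le ?_ ?_)
      · have e0 : 0 ≤ α * p ^ k := mul_nonneg R.a0.le (pk k)
        have e1 : 0 ≤ 1 - α * p ^ k := sub_nonneg.2 (mul_le_one₀ R.a1 (pk k) (pk1 k))
        have e2 := mul_le_mul_of_nonneg_left i10 e1
        have e3 := mul_nonneg e0 (h4 r)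
        have e4 := h6 r (by omega) k
        have e5 := h1 r
        nlinarith
      · have e2 := mul_le_mul_of_nonneg_left (ih (k + 1)).1 p_pos.le
        have e3 := mul_le_mul_of_nonneg_left i00 p1
        have e4 : p * (a r * tn (k + 1)) = a r * (tn k + 1) := by rw [← tn_succ]; ring
        have e5 := h1 r
        nlinarith
    · refine (R.s1 r k).trans ?_
      rcases lt_or_ge k K with hk | hk
      · refine (add_le_add_right (min_le_right _ _) 1).trans ?_
        have e2 := mul_le_mul_of_nonneg_left (ih (k + 1)).2 p_pos.le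
        rw [min_eq_left (show k + 1 ≤ K from hk)] at e2
        rw [min_eq_left hk.le]
        have e3 := mul_le_mul_of_nonneg_left i10 p1
        have e4 : p * ((1 - a r) * tn (k + 1)) = (1 - a r) * (tn k + 1) := by rw [← tn_succ]; ring
        have e5 := h1 r
        have e6 := h3 r
        nlinarith
      · refine (add_le_add_right (min_le_left _ _) 1).trans ?_
        rw [min_eq_right hk]
        have e1 : 0 ≤ 1 - β * p ^ k := sub_nonneg.2 (mul_le_one₀ R.b1 (pk k) (pk1 k))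
        have e2 := mul_le_mul_of_nonneg_left i00 e1
        have e4 := h5 r (by omega) k hk
        have e5 := h1 r
        have e6 := h3 r
        have e7 := mul_le_mul_of_nonneg_right (h2 r) (Nat.cast_nonneg (α := ℝ) (tn K))
        nlinarith

def zz (K : ℕ) : ℕ := (tn K + 1) * 10000 ^ K

theorem zz_mul (K : ℕ) : (zz K : ℝ) * p ^ K = tn K + 1 := by
  simp only [zz, p]
  push_cast
  rw [mul_assoc, ← mul_pow]
  norm_num

theorem Rec.lin {β : ℝ} {u0 u1 : ℕ → ℕ → ℝ} (R : Rec 1 β u0 u1) (K m : ℕ)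
    (hm : p * (1 + β * m) ≤ 1) :
    u0 (m * zz K) 0 ≤ zz K * (1 + β * m) + p * (1 + β * m) * (m * zz K : ℕ) := by
  have hz := zz_mul K
  have z0 : (0 : ℝ) ≤ zz K := Nat.cast_nonneg _
  have T0 : (0 : ℝ) ≤ tn K := Nat.cast_nonneg _
  have c0 : 0 ≤ β * m := mul_nonneg R.b0.le (Nat.cast_nonneg _)
  have s0 : 0 ≤ p * (1 + β * m) := mul_nonneg p_pos.le (by linarith)
  have f0 : ∀ r : ℕ, 0 ≤ zz K * (1 + β * m) + p * (1 + β * m) * r := fun r => by positivity
  have := (R.super (m * zz K) K (fun r => zz K * (1 + β * m) + p * (1 + β * m) * r)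
    (fun _ => p * (1 + β * m)) (fun _ => (tn K + 1) * (1 + β * m))
    (fun r => by push_cast; linarith) (fun _ => le_rfl) (fun _ => le_rfl)
    (fun _ => by positivity) (fun r hr k hk => ?_) (fun r hr k => ?_)
    (by simpa using f0 0) s0 hm (by nlinarith) _ le_rfl 0).1
  · simpa [tn] using this
  · have e1 : (r : ℝ) ≤ m * zz K := by exact_mod_cast hr
    have e2 := ppow_anti hk
    have pk := pow_nonneg p_pos.le k
    have e3 : p ^ k * (r - (zz K * (1 + β * m) + p * (1 + β * m) * r)) ≤ m * (tn K + 1) := by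
      calc _ ≤ p ^ k * (m * zz K) := mul_le_mul_of_nonneg_left (by linarith [f0 r]) pk
        _ ≤ p ^ K * (m * zz K) := mul_le_mul_of_nonneg_right e2 (by positivity)
        _ = _ := by rw [← hz]; ring
    have e4 := mul_le_mul_of_nonneg_left e3 R.b0.le
    have e5 : 0 ≤ p * (1 + β * m) * (tn K + 1) := by positivity
    nlinarith
  · have pk := pow_nonneg p_pos.le k
    rcases le_or_gt k K with hk | hk
    · have e2 := ppow_anti hk
      have e3 : ((tn K : ℝ) + 1) * (1 + β * m) ≤ p ^ k * (zz K * (1 + β * m)) := by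
        rw [← hz]
        have : 0 ≤ (zz K : ℝ) * (1 + β * m) := by positivity
        nlinarith
      have e4 : 0 ≤ p * (1 + β * m) * (tn k + 1) := by positivity
      have e5 : 0 ≤ p ^ k * (p * (1 + β * m) * r) := by positivity
      nlinarith
    · have e2 := tn_le (show K + 1 ≤ k from hk)
      have e3 := tn_succ K
      have e4 := mul_le_mul_of_nonneg_left e2 s0
      have e5 : 0 ≤ p ^ k * (zz K * (1 + β * m) + p * (1 + β * m) * r) := mul_nonneg pk (f0 r)
      have e6 : p * (1 + β * m) * tn (K + 1) = (tn K + 1) * (1 + β * m) := by rw [← e3]; ring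
      nlinarith

theorem Rec.quad {α β : ℝ} {u0 u1 : ℕ → ℕ → ℝ} (R : Rec α β u0 u1) (K m : ℕ) :
    u0 (m * zz K) 0 ≤ p / α * zz K * (1 / 2 + β * m / 4) + (1 / 2 + β * m / 8) * (m * zz K) ∧
    u1 (m * zz K) 0 ≤ p / α * zz K * (1 / 2 + β * m / 4) + (1 / 2 + β * m / 8) * (m * zz K) +
      p ^ K * zz K * (1 / 2 + β * m / 4) := by
  have hz := zz_mul K
  have T0 : (0 : ℝ) ≤ tn K := Nat.cast_nonneg _
  have pK := pow_pos p_pos K
  have z0 : (0 : ℝ) < zz K := by
    by_contra h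
    have : (zz K : ℝ) * p ^ K ≤ 0 := mul_nonpos_of_nonpos_of_nonneg (not_lt.1 h) pK.le
    linarith
  have b0 := R.b0
  have a0 := R.a0
  have pp := p_pos
  set κ : ℝ := β / (8 * zz K) with hκ
  have k0 : 0 < κ := by positivity
  have hk8 : κ * (tn K + 1) = β * p ^ K / 8 := by rw [← hz, hκ]; field_simp
  set φ₀ : ℝ := p / α * zz K * (1 / 2 + β * m / 4) with hφ₀
  have f0 : 0 ≤ φ₀ := by positivity
  have := R.super (m * zz K) K (fun r => φ₀ + r / 2 + κ * r ^ 2)
    (fun r => 1 / 2 + 2 * κ * r) (fun r => (tn K + 1) / 2 + β * p ^ K * r / 4)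
    (fun r => by push_cast; nlinarith) (fun r => by push_cast; nlinarith)
    (fun r => by push_cast; nlinarith [mul_pos b0 pK])
    (fun _ => by positivity) (fun r hr k hk => ?_) (fun r hr k => ?_)
    (by simpa using f0) (by norm_num) (by norm_num) (by simp; linarith) _ le_rfl 0
  · have e1 : κ * ((m * zz K : ℕ) : ℝ) ^ 2 = β * m / 8 * (m * zz K) := by
      push_cast; rw [hκ]; field_simp
    have e2 : ((tn K : ℝ) + 1) / 2 + β * p ^ K * ((m * zz K : ℕ) : ℝ) / 4 =
        p ^ K * zz K * (1 / 2 + β * m / 4) := by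
      push_cast; rw [← hz]; ring
    simp only [tn, Nat.cast_zero, mul_zero, add_zero, Nat.zero_min, sub_zero] at this
    rw [e1, e2] at this
    push_cast at this
    constructor <;> linarith [this.1, this.2]
  · have e2 := ppow_anti hk
    have pk := pow_nonneg p_pos.le k
    have r0 : (0 : ℝ) ≤ r := Nat.cast_nonneg _
    have e3 : p ^ k * (r - (φ₀ + r / 2 + κ * r ^ 2)) ≤ p ^ K * (r / 2) := by
      calc _ ≤ p ^ k * (r / 2) :=
            mul_le_mul_of_nonneg_left (by nlinarith [mul_nonneg k0.le (sq_nonneg (r : ℝ))]) pk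
        _ ≤ _ := mul_le_mul_of_nonneg_right e2 (by positivity)
    have e4 := mul_le_mul_of_nonneg_left e3 b0.le
    have e5 : κ * (tn K + 1) * r = β * p ^ K / 8 * r := by rw [hk8]
    nlinarith
  · have pk := pow_nonneg p_pos.le k
    have r0 : (0 : ℝ) ≤ r := Nat.cast_nonneg _
    have g0 : 0 ≤ φ₀ + r / 2 + κ * r ^ 2 := by positivity
    rcases le_or_gt K k with hk | hk
    · have e2 := tn_le hk
      have e3 : 0 ≤ 1 / 2 + 2 * κ * r := by positivity
      have e4 := mul_le_mul_of_nonneg_left e2 e3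
      have e5 : κ * (tn K + 1) * r = β * p ^ K / 8 * r := by rw [hk8]
      have e6 : 0 ≤ α * p ^ k * (φ₀ + r / 2 + κ * r ^ 2) := by positivity
      nlinarith
    · have e1 : (r : ℝ) ≤ m * zz K := by exact_mod_cast hr
      have e2 : p ^ K ≤ p ^ k * p := by
        rw [← pow_succ]; exact ppow_anti hk
      have e3 : α * p ^ k * φ₀ = p ^ k * p * (zz K * (1 / 2 + β * m / 4)) := by
        rw [hφ₀]; field_simp
      have e4 : p ^ K * (zz K * (1 / 2 + β * m / 4)) ≤ α * p ^ k * φ₀ := by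
        rw [e3]; exact mul_le_mul_of_nonneg_right e2 (by positivity)
      have e5 : 0 ≤ α * p ^ k * (r / 2 + κ * r ^ 2) := by positivity
      have e6 : 0 ≤ (1 / 2 + 2 * κ * r) * (tn k + 1) := by positivity
      have e7 := mul_le_mul_of_nonneg_left e1 (mul_pos b0 pK).le
      rw [← hz]
      nlinarith

theorem U_ab (σ : Bool) (r : ℕ) : dyn.U r (inr (some σ)) = ind σ * r := by
  induction r with
  | zero => simp [Dyn.U]
  | succ r ih =>
    simp only [Dyn.U, L_ab, ih]
    cases σ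
    · simp [pay_a0, ind]
    · simp [pay_a1, ind]; ring

theorem rec_direct (γ : Bool) : Rec (rho γ false) (rho γ true)
    (fun r k => dyn.U r (inl (γ, false, k))) (fun r k => dyn.U r (inl (γ, true, k))) where
  a0 := rho_pos _ _
  a1 := rho_le _ _
  b0 := rho_pos _ _
  b1 := rho_le _ _
  z0 := fun _ => le_rfl
  z1 := fun _ => le_rfl
  s0 := fun r k => by simp [Dyn.U, L_p1, pay_p1, U_ab, ind]
  s1 := fun r k => by simp [Dyn.U, L_p2, pay_p2, U_ab, ind]

theorem rec_mirror (γ : Bool) : Rec (rho γ true) (rho γ false)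
    (fun r k => r - dyn.U r (inl (γ, true, k))) (fun r k => r - dyn.U r (inl (γ, false, k))) where
  a0 := rho_pos _ _
  a1 := rho_le _ _
  b0 := rho_pos _ _
  b1 := rho_le _ _
  z0 := fun _ => by simp [Dyn.U]
  z1 := fun _ => by simp [Dyn.U]
  s0 := fun r k => by
    simp only [Dyn.U, L_p2, pay_p2, U_ab, ind, cond_true]
    push_cast
    rcases min_choice (rho γ true * p ^ k * (1 * (r : ℝ)) +
        (1 - rho γ true * p ^ k) * dyn.U r (inl (γ, false, 0)))
      (p * dyn.U r (inl (γ, true, k + 1)) + (1 - p) * dyn.U r (inl (γ, true, 0))) with h | h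
    · rw [h]; exact le_max_of_le_left (le_of_eq (by ring))
    · rw [h]; exact le_max_of_le_right (le_of_eq (by ring))
  s1 := fun r k => by
    simp only [Dyn.U, L_p1, pay_p1, U_ab, ind, cond_false]
    push_cast
    have h1 := le_max_left (rho γ false * p ^ k * (0 * (r : ℝ)) +
        (1 - rho γ false * p ^ k) * dyn.U r (inl (γ, true, 0)))
      (p * dyn.U r (inl (γ, false, k + 1)) + (1 - p) * dyn.U r (inl (γ, false, 0)))
    have h2 := le_max_right (rho γ false * p ^ k * (0 * (r : ℝ)) +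
        (1 - rho γ false * p ^ k) * dyn.U r (inl (γ, true, 0)))
      (p * dyn.U r (inl (γ, false, k + 1)) + (1 - p) * dyn.U r (inl (γ, false, 0)))
    rw [← sub_le_iff_le_add']
    refine le_min ?_ ?_ <;> linarith

theorem U_upper (K : ℕ) : dyn.U (20 * zz K + 1) (inr none) ≤ 309 / 1000 * (20 * zz K : ℕ) := by
  have h1 := (rec_direct false).lin K 20 (by norm_num [p, rho])
  have h2 := ((rec_direct true).quad K 20).1
  have z0 : (0 : ℝ) ≤ zz K := Nat.cast_nonneg _
  simp only [Dyn.U, L_top, pay_top, zero_add]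
  refine (min_le_right _ _).trans ?_
  simp only [rho, p] at h1 h2
  push_cast at h1 h2 ⊢
  linarith

theorem U_lower (K : ℕ) (hK : 1 ≤ K) : 5 / 16 * (zz K : ℝ) ≤ dyn.U (zz K + 1) (inr none) := by
  have h1 := ((rec_mirror false).quad K 1).2
  have h2 := ((rec_mirror true).quad K 1).2
  have z0 : (0 : ℝ) ≤ zz K := Nat.cast_nonneg _
  have h3 : p ^ K * zz K ≤ p * zz K := by
    have := ppow_anti hK
    rw [pow_one] at this
    exact mul_le_mul_of_nonneg_right this z0
  simp only [Dyn.U, L_top, pay_top, zero_add, U_ab, ind, cond_true, cond_false]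
  simp only [rho, one_mul] at h1 h2
  set P := p ^ K * zz K
  simp only [p] at h1 h2 h3
  push_cast at h1 h2
  refine le_min ?_ ?_ <;> linarith

theorem le_zz (K : ℕ) : K ≤ zz K := by
  have h1 : K < 10000 ^ K := Nat.lt_pow_self (by norm_num)
  unfold zz
  nlinarith [Nat.zero_le (tn K * 10000 ^ K)]

end Pool.Agent.MP_3fd3f5_an.Ex

end

-- part MP_3fd3f5_an.Discount
section

namespace Pool.Agent.MP_3fd3f5_an.Ex

open Sum

noncomputable def al (lam : ℝ) : ℕ → ℝ
  | 0 => 0
  | k + 1 => (1 + (1 + lam) * al lam k) / p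

theorem al_succ (lam : ℝ) (k : ℕ) : p * al lam (k + 1) = 1 + (1 + lam) * al lam k := by
  simp only [al]; field_simp [p_pos.ne']

theorem al_ge {lam : ℝ} (hl : 0 < lam) (k : ℕ) : (k : ℝ) ≤ al lam k := by
  induction k with
  | zero => simp [al]
  | succ k ih =>
    have k0 : (0 : ℝ) ≤ k := Nat.cast_nonneg _
    simp only [al]
    rw [le_div_iff₀ p_pos]
    push_cast
    nlinarith [p_le, p_pos, mul_nonneg hl.le (k0.trans ih)]

theorem al_nonneg {lam : ℝ} (hl : 0 < lam) (k : ℕ) : 0 ≤ al lam k :=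
  (Nat.cast_nonneg _).trans (al_ge hl k)

/-- Inverse expected discount factor needed to reach level `k` and leave. -/
noncomputable def E (lam : ℝ) (k : ℕ) : ℝ := (1 + lam) * (1 + lam * al lam k)

theorem E_ge {lam : ℝ} (hl : 0 < lam) (k : ℕ) : 1 < E lam k := by
  unfold E
  nlinarith [mul_nonneg hl.le (al_nonneg hl k), mul_nonneg hl.le (mul_nonneg hl.le (al_nonneg hl k))]

noncomputable def sub (lam : ℝ) (A B : Bool → ℝ) (ks : Bool → ℕ) : Pos → ℝ
  | inl (γ, false, k) => A γ * (1 + lam * al lam (min k (ks γ)))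
  | inl (γ, true, k) => 1 - (1 - B γ) * (1 + lam * al lam k)
  | inr (some σ) => ind σ
  | inr none => 0

theorem sub_le {lam : ℝ} (hl : 0 < lam) {w : Pos → ℝ}
    (hw : ∀ u : Pos → ℝ, (∀ x, u x ≤ 1) → (∀ x, (1 + lam) * u x ≤ lam * dyn.pay x + dyn.L u x) →
      ∀ x, u x ≤ w x) (A B : Bool → ℝ) (ks : Bool → ℕ) (A0 : ∀ γ, 0 ≤ A γ)
    (B0 : ∀ γ, 0 ≤ B γ) (B1 : ∀ γ, B γ ≤ 1)
    (h1 : ∀ γ, E lam (ks γ) * A γ ≤ (1 - rho γ false * p ^ ks γ) * B γ)
    (h2 : ∀ γ k, (1 - rho γ true * p ^ k) * (1 - A γ) ≤ E lam k * (1 - B γ)) (γ : Bool) :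
    A γ ≤ w (inl (γ, false, 0)) := by
  have almono : Monotone (al lam) := monotone_nat_of_le_succ fun k => by
    have := al_succ lam k
    have := al_nonneg hl k
    have := al_nonneg hl (k + 1)
    nlinarith [p_le, p_pos, mul_nonneg hl.le (al_nonneg hl k)]
  have := hw (sub lam A B ks) ?_ ?_ (inl (γ, false, 0))
  · simpa [sub, al] using this
  · rintro (⟨γ, _ | _, k⟩ | _ | σ)
    · simp only [sub]
      have e1 := h1 γ
      have e2 := almono (min_le_right k (ks γ))
      have e3 := mul_le_mul_of_nonneg_left e2 (mul_nonneg (A0 γ) hl.le)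
      have e4 := mul_nonneg (risk0 γ false (ks γ)) (B0 γ)
      have e5 : 0 ≤ lam * ((1 + lam * al lam (ks γ)) * A γ) :=
        mul_nonneg hl.le (mul_nonneg (by nlinarith [al_nonneg hl (ks γ)]) (A0 γ))
      unfold E at e1
      nlinarith [B1 γ]
    · simp only [sub]
      have : 0 ≤ (1 - B γ) * (1 + lam * al lam k) :=
        mul_nonneg (sub_nonneg.2 (B1 γ)) (by nlinarith [al_nonneg hl k])
      linarith
    · simp [sub]
    · cases σ <;> simp [sub, ind]
  · rintro (⟨γ, _ | _, k⟩ | _ | σ)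
    · rw [L_p1, pay_p1]
      simp only [sub, ind, cond_false, al, Nat.zero_min, mul_zero, add_zero, zero_add, mul_one]
      rcases lt_or_ge k (ks γ) with hk | hk
      · refine le_max_of_le_right ?_
        rw [min_eq_left hk.le, min_eq_left (show k + 1 ≤ ks γ from hk)]
        have := al_succ lam k
        apply le_of_eq
        linear_combination (-(A γ * lam)) * this
      · refine le_max_of_le_left ?_
        rw [min_eq_right hk]
        have e1 := h1 γ
        unfold E at e1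
        have e2 := mul_le_mul_of_nonneg_left (ppow_anti hk)
          (mul_nonneg (rho_pos γ false).le (B0 γ))
        nlinarith
    · rw [L_p2, pay_p2]
      simp only [sub, ind, cond_true, Nat.zero_min, mul_one]
      have z : al lam 0 = 0 := rfl
      simp only [z, mul_zero, add_zero, mul_one]
      rw [← sub_le_iff_le_add']
      refine le_min ?_ ?_
      · have e1 := h2 γ k
        unfold E at e1
        nlinarith
      · have := al_succ lam k
        apply le_of_eq
        linear_combination ((1 - B γ) * lam) * this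
    · rw [L_top, pay_top]
      simp only [sub, ind, cond_true, cond_false, al, Nat.zero_min, mul_zero, add_zero, zero_add,
        mul_one]
      exact le_min (by norm_num) (by linarith [A0 false, A0 true])
    · rw [L_ab]
      cases σ
      · simp [sub, ind, pay_a0]
      · simp [sub, ind, pay_a1, add_comm]

/-- Cost of leaving at level `k` with risk coefficient `r`. -/
noncomputable def cost (lam r : ℝ) (k : ℕ) : ℝ := 1 - (1 - r * p ^ k) / E lam k

theorem cost_one {lam r : ℝ} (hl : 0 < lam) (hl1 : lam ≤ 1 / 10 ^ 9) (r0 : 0 ≤ r)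
    (r1 : r ≤ 1 / 40) : cost lam r 1 ≤ 1 / 10000 := by
  have e1 := E_ge hl 1
  have e2 : E lam 1 ≤ 1 + 2 / 100000 := by
    simp only [E, al, p]
    nlinarith
  unfold cost
  rw [sub_le_comm, le_div_iff₀ (by linarith)]
  simp only [p, pow_one]
  nlinarith

theorem exists_argmin {lam r : ℝ} (hl : 0 < lam) (hl1 : lam ≤ 1 / 10 ^ 9) (r0 : 0 ≤ r)
    (r1 : r ≤ 1 / 40) : ∃ k₀, ∀ k, cost lam r k₀ ≤ cost lam r k := by
  obtain ⟨M, hM⟩ := exists_nat_ge (1 / lam)
  obtain ⟨k₀, -, h⟩ := (Finset.range (M + 2)).exists_min_image (cost lam r) ⟨0, by simp⟩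
  refine ⟨k₀, fun k => ?_⟩
  rcases lt_or_ge k (M + 2) with hk | hk
  · exact h k (Finset.mem_range.2 hk)
  · refine (h 1 (by simp)).trans ((cost_one hl hl1 r0 r1).trans ?_)
    have e1 : (M : ℝ) ≤ al lam k := le_trans (by exact_mod_cast (by omega : M ≤ k)) (al_ge hl k)
    have e2 : 1 ≤ lam * al lam k := by
      rw [div_le_iff₀ hl] at hM
      nlinarith
    have e3 : 2 ≤ E lam k := by unfold E; nlinarith
    have e4 := mul_nonneg r0 (pow_nonneg p_pos.le k)
    unfold cost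
    rw [le_sub_comm, div_le_iff₀ (by linarith)]
    nlinarith

theorem abel_ineq {X Y u : ℝ} (X0 : 0 < X) (Y0 : 0 ≤ Y) (u0 : 0 < u) (h : u ≤ X + Y) :
    63 / 100 ≤ u / (X + 400 * Y + u) + (X + 10 * Y) / (u + (X + 10 * Y)) := by
  rw [div_add_div _ _ (by positivity) (by positivity), le_div_iff₀ (by positivity)]
  have h1 : 390 * Y * (X + Y) ≤ 37 / 100 * ((2 * X + 401 * Y) * (2 * X + 11 * Y)) := by
    nlinarith [sq_nonneg (X - 29 * Y)]
  have h2 : u * ((2 * X + 401 * Y) * (2 * X + 11 * Y)) ≤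
      (X + Y) * ((X + 400 * Y + u) * (u + (X + 10 * Y))) := by
    have a1 : 0 ≤ (X + 400 * Y) * (X + 10 * Y) - u * (X + Y) := by nlinarith
    nlinarith [mul_nonneg (sub_nonneg.2 h) a1]
  have h3 : (X + Y) * (390 * Y * u) ≤
      (X + Y) * (37 / 100 * ((X + 400 * Y + u) * (u + (X + 10 * Y)))) := by
    nlinarith [mul_le_mul_of_nonneg_left h1 u0.le]
  have h4 := le_of_mul_le_mul_left h3 (by positivity)
  nlinarith

theorem cost_eq {lam : ℝ} (hl : 0 < lam) (r : ℝ) (k : ℕ) :
    1 - r * p ^ k = E lam k * (1 - cost lam r k) := by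
  have := E_ge hl k
  unfold cost
  field_simp
  ring

theorem avg_ge {lam : ℝ} (hl : 0 < lam) (hl1 : lam ≤ 1 / 10 ^ 9) {w : Pos → ℝ}
    (hw : ∀ u : Pos → ℝ, (∀ x, u x ≤ 1) → (∀ x, (1 + lam) * u x ≤ lam * dyn.pay x + dyn.L u x) →
      ∀ x, u x ≤ w x) : 5 / 8 ≤ w (inl (false, false, 0)) + w (inl (true, false, 0)) := by
  obtain ⟨k₁, hk₁⟩ := exists_argmin (r := 1 / 400) hl hl1 (by norm_num) (by norm_num)
  obtain ⟨k₂, hk₂⟩ := exists_argmin (r := 1 / 40) hl hl1 (by norm_num) (by norm_num)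
  have Epos : ∀ k, 0 < E lam k := fun k => by linarith [E_ge hl k]
  have cpos : ∀ r k, 0 ≤ r → 0 < cost lam r k := fun r k r0 => by
    unfold cost
    rw [sub_pos, div_lt_one (Epos k)]
    linarith [E_ge hl k, mul_nonneg r0 (pow_nonneg p_pos.le k)]
  set u := cost lam (1 / 400) k₁ with hu
  set X := cost lam 0 k₂ with hX
  set Y := p ^ k₂ / E lam k₂ / 400 with hY
  have X0 : 0 < X := cpos _ _ le_rfl
  have Y0 : 0 ≤ Y := div_nonneg (div_nonneg (pow_nonneg p_pos.le _) (Epos _).le) (by norm_num)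
  have hc : ∀ r, cost lam r k₂ = X + 400 * r * Y := fun r => by
    simp only [hX, hY, cost]; ring
  have u0 : 0 < u := cpos _ _ (by norm_num)
  have u1 : u ≤ X + Y := by have := hk₁ k₂; rw [hc] at this; linarith
  have Q1 : X + 10 * Y ≤ 1 / 10000 := by
    have := (hk₂ 1).trans (cost_one hl hl1 (by norm_num) le_rfl)
    rw [hc] at this; linarith
  set P := X + 400 * Y with hP
  set Q := X + 10 * Y with hQ
  have P0 : 0 < P := by positivity
  have Q0 : 0 < Q := by positivity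
  have P1 : P ≤ 1 / 250 := by linarith
  have u2 : u ≤ 1 / 250 := by linarith
  -- generic facts for the pair (C₁, C₂)
  have gen : ∀ C₁ C₂ : ℝ, 0 < C₁ → C₁ ≤ 1 → 0 < C₂ → C₂ ≤ 1 →
      0 ≤ (1 - C₁) * (C₂ / (C₁ + C₂)) ∧ (1 - C₁) * (C₂ / (C₁ + C₂)) ≤ 1 ∧
      (1 - C₁) * (C₂ / (C₁ + C₂)) ≤ (1 - C₁) * ((1 - C₁) * (C₂ / (C₁ + C₂)) +
        C₂ * (1 - (1 - C₁) * (C₂ / (C₁ + C₂)))) := by
    intro C₁ C₂ a0 a1 b0 b1
    have t0 : 0 ≤ C₂ / (C₁ + C₂) := by positivity
    have t1 : C₂ / (C₁ + C₂) ≤ 1 := by rw [div_le_one (by positivity)]; linarith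
    have t2 : C₂ / (C₁ + C₂) * (C₁ + C₂) = C₂ := by field_simp
    set t := C₂ / (C₁ + C₂)
    refine ⟨mul_nonneg (by linarith) t0, by nlinarith, mul_le_mul_of_nonneg_left ?_ (by linarith)⟩
    nlinarith [mul_nonneg (mul_nonneg a0.le b0.le) t0]
  obtain ⟨g1, g2, g3⟩ := gen P u P0 (by linarith) u0 (by linarith)
  obtain ⟨g4, g5, g6⟩ := gen u Q u0 (by linarith) Q0 (by linarith)
  set A₁ := (1 - P) * (u / (P + u)) with hA₁
  set A₂ := (1 - u) * (Q / (u + Q)) with hA₂
  have key := sub_le hl hw (fun γ => bif γ then A₂ else A₁)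
    (fun γ => bif γ then A₂ + Q * (1 - A₂) else A₁ + u * (1 - A₁))
    (fun γ => bif γ then k₁ else k₂)
    (by rintro (_ | _) <;> simpa)
    (by rintro (_ | _) <;> simp only [cond_true, cond_false] <;> nlinarith)
    (by rintro (_ | _) <;> simp only [cond_true, cond_false] <;> nlinarith)
    (by
      rintro (_ | _) <;> simp only [cond_true, cond_false, rho] <;> rw [cost_eq hl, mul_assoc] <;>
        refine mul_le_mul_of_nonneg_left ?_ (Epos _).le
      · rw [hc, mul_one]; exact g3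
      · exact g6)
    (by
      rintro (_ | _) k <;> simp only [cond_true, cond_false, rho] <;>
        rw [cost_eq hl, mul_assoc] <;> refine mul_le_mul_of_nonneg_left ?_ (Epos _).le
      · nlinarith [mul_le_mul_of_nonneg_right (hk₁ k) (sub_nonneg.2 g2)]
      · have := hk₂ k
        rw [hc] at this
        have e : Q ≤ cost lam (1 / 40) k := by linarith
        nlinarith [mul_le_mul_of_nonneg_right e (sub_nonneg.2 g5)])
  have k1 := key false
  have k2 := key true
  simp only [cond_true, cond_false] at k1 k2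
  have ab := abel_ineq X0 Y0 u0 u1
  have t0 : 0 ≤ u / (P + u) := by positivity
  have t1 : u / (P + u) ≤ 1 := by rw [div_le_one (by positivity)]; linarith
  have s0 : 0 ≤ Q / (u + Q) := by positivity
  have s1 : Q / (u + Q) ≤ 1 := by rw [div_le_one (by positivity)]; linarith
  have m1 := mul_le_mul_of_nonneg_right P1 t0
  have m2 := mul_le_mul_of_nonneg_right u2 s0
  change 63 / 100 ≤ u / (P + u) + Q / (u + Q) at ab
  nlinarith

theorem top_val {lam : ℝ} (hl : 0 < lam) (hl1 : lam ≤ 1 / 10 ^ 9) {w : Pos → ℝ}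
    (hf : ∀ x, (1 + lam) * w x = lam * dyn.pay x + dyn.L w x)
    (hw : ∀ u : Pos → ℝ, (∀ x, u x ≤ 1) → (∀ x, (1 + lam) * u x ≤ lam * dyn.pay x + dyn.L u x) →
      ∀ x, u x ≤ w x) : w (inr none) = 5 / 16 / (1 + lam) := by
  have a := avg_ge hl hl1 hw
  have e0 : w (inr (some false)) = 0 := by
    have := hf (inr (some false))
    rw [L_ab, pay_a0] at this
    exact mul_left_cancel₀ hl.ne' (by linarith)
  have e1 : w (inr (some true)) = 1 := by
    have := hf (inr (some true))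
    rw [L_ab, pay_a1] at this
    exact mul_left_cancel₀ hl.ne' (by linarith)
  have := hf (inr none)
  rw [L_top, pay_top, e0, e1, min_eq_left (by linarith)] at this
  rw [eq_div_iff (by linarith)]
  linarith

end Pool.Agent.MP_3fd3f5_an.Ex

end

-- part MP_3fd3f5_an.Main
section

namespace Pool.Agent.MP_3fd3f5_an.Ex

open Filter Topology Sum

theorem exists_V : ∃ V : ℝ → ℝ, (∀ lam ∈ Set.Ioo (0 : ℝ) 1, game.IsDiscLimit p0 lam (V lam)) ∧
    Tendsto V (𝓝[>] 0) (𝓝 (5 / 16)) := by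
  have h : ∀ lam : ℝ, ∃ v : ℝ, (lam ∈ Set.Ioo (0 : ℝ) 1 → game.IsDiscLimit p0 lam v) ∧
      (lam ∈ Set.Ioo (0 : ℝ) (1 / 10 ^ 9) → v = 5 / 16 / (1 + lam)) := by
    intro lam
    by_cases hl : 0 < lam
    · obtain ⟨w, w0, w1, hf, hw⟩ := dyn.exists_fix hl
      exact ⟨w (inr none), fun h => model.isDiscLimit (inr none) p0 hp0 hl h.2 w0 w1 hf,
        fun h => top_val hl h.2.le hf hw⟩
    · exact ⟨0, fun h => absurd h.1 hl, fun h => absurd h.1 hl⟩
  choose V hV1 hV2 using h
  refine ⟨V, hV1, ?_⟩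
  have h1 : Tendsto (fun lam : ℝ => 5 / 16 / (1 + lam)) (𝓝[>] 0) (𝓝 (5 / 16 / (1 + 0))) :=
    Tendsto.mono_left (tendsto_const_nhds.div (tendsto_const_nhds.add tendsto_id) (by norm_num))
      nhdsWithin_le_nhds
  rw [add_zero, div_one] at h1
  refine h1.congr' ?_
  filter_upwards [Ioo_mem_nhdsGT (show (0 : ℝ) < 1 / 10 ^ 9 by norm_num)] with lam hl
  exact (hV2 lam hl).symm

theorem sqrt_div_lim : Tendsto (fun x : ℝ => √x / x) atTop (𝓝 0) := by
  have h : Tendsto (fun x : ℝ => (√x)⁻¹) atTop (𝓝 0) :=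
    tendsto_inv_atTop_zero.comp Real.tendsto_sqrt_atTop
  refine h.congr fun x => ?_
  rw [Real.sqrt_div_self]

theorem exists_W : ∃ W : ℝ → ℝ, (∀ T > 0, game.IsHorLimit p0 T (W T)) ∧
    ¬ ∃ l, Tendsto W atTop (𝓝 l) := by
  have h : ∀ T : ℝ, ∃ W : ℝ, 0 < T → game.IsHorLimit p0 T W ∧
      ∀ n : ℕ, T = n → |dyn.U n (inr none) / n - W| ≤ √n / n := by
    intro T
    by_cases hT : 0 < T
    · obtain ⟨W, hW⟩ := model.exists_horLimit (inr none) p0 hp0 hT
      exact ⟨W, fun _ => hW⟩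
    · exact ⟨0, fun h => absurd h hT⟩
  choose W hW using h
  refine ⟨W, fun T hT => (hW T hT).1, ?_⟩
  rintro ⟨l, hl⟩
  have hz : Tendsto zz atTop atTop := tendsto_atTop_mono le_zz tendsto_id
  have a1 : Tendsto (fun K => ((20 * zz K + 1 : ℕ) : ℝ)) atTop atTop :=
    tendsto_natCast_atTop_atTop.comp (tendsto_atTop_mono (fun K => by omega) hz)
  have a2 : Tendsto (fun K => ((zz K + 1 : ℕ) : ℝ)) atTop atTop :=
    tendsto_natCast_atTop_atTop.comp (tendsto_atTop_mono (fun K => by omega) hz)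
  have up : l ≤ 309 / 1000 + 0 := by
    refine le_of_tendsto_of_tendsto' (hl.comp a1) ((sqrt_div_lim.comp a1).const_add _) fun K => ?_
    have pos : (0 : ℝ) < ((20 * zz K + 1 : ℕ) : ℝ) := by positivity
    have e1 := (abs_le.1 ((hW _ pos).2 _ rfl)).1
    have e2 : dyn.U (20 * zz K + 1) (inr none) / ((20 * zz K + 1 : ℕ) : ℝ) ≤ 309 / 1000 := by
      rw [div_le_iff₀ pos]
      have := U_upper K
      push_cast at this ⊢
      linarith
    simp only [Function.comp]
    linarith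
  have lo : 5 / 16 - 0 - 0 ≤ l := by
    refine le_of_tendsto_of_tendsto
      (((tendsto_inv_atTop_zero.comp a2).const_sub (5 / 16)).sub (sqrt_div_lim.comp a2))
      (hl.comp a2) ?_
    filter_upwards [eventually_ge_atTop 1] with K hK
    have pos : (0 : ℝ) < ((zz K + 1 : ℕ) : ℝ) := by positivity
    have e1 := (abs_le.1 ((hW _ pos).2 _ rfl)).2
    have e2 : 5 / 16 - (((zz K + 1 : ℕ) : ℝ))⁻¹ ≤
        dyn.U (zz K + 1) (inr none) / ((zz K + 1 : ℕ) : ℝ) := by
      rw [le_div_iff₀ pos, sub_mul, inv_mul_cancel₀ pos.ne']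
      have := U_lower K hK
      push_cast at this ⊢
      linarith
    simp only [Function.comp]
    linarith
  norm_num at up lo
  linarith

end Pool.Agent.MP_3fd3f5_an.Ex

end
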